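import Pool.Agent.J4H81.HL.Stm3
import Pool.Agent.Helper602.MK.J3

/-!
# Part H of helper81's project HL: the Brun-Titchmarsh inequality (helper57)
-/

set_option autoImplicit false

namespace Pool.Agent.J4H57.HL

open Finset Pool.Agent.J4H81.HL

theorem t_BT : S_BT := by
  obtain ⟨C, hC, h⟩ := Pool.Agent.Helper602.MK.N_J3.J3
  refine ⟨C, hC, fun W a T hW _ hT => ?_⟩
  have h1 := h a W T hW hT
  have h2 : (range T).filter (fun t => (a + W * t).Prime) = (range T).filter (fun t => (a + t * W).Prime) := by
    apply filter_congr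
    intro t _
    rw [mul_comm]
  rw [h2]
  refine h1.trans (le_of_eq ?_)
  ring

end Pool.Agent.J4H57.HL
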