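import Pool.Agent.J4H57.HL.Occ
import Pool.Agent.J4H81.HL.Stm3

/-!
# Part G of helper81's project HL: almost independence of the values (helper57)
-/

set_option autoImplicit false

namespace Pool.Agent.J4H57.HL

open Finset Pool.Agent.J4H81.HL
open Pool.Agent.J4H81.PT (VV AdmZ)

/-- the number of the admissible classes for a vector of units -/
noncomputable def vv {k W : ℕ} [NeZero W] (b : Fin k → (ZMod W)ˣ) : ℝ :=
  ((VV (fun i => (b i : ZMod W))).card : ℝ)

lemma vv_pos {k W : ℕ} [NeZero W] (b : Fin k → (ZMod W)ˣ) : 0 < vv b := by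
  unfold vv
  have : (0 : ZMod W) ∈ VV (fun i => (b i : ZMod W)) := by
    unfold VV
    rw [mem_filter]
    exact ⟨mem_univ _, fun i => by rw [zero_add]; exact (b i).isUnit⟩
  exact_mod_cast card_pos.2 ⟨_, this⟩

/-- the sum with prescribed values on `J` -/
noncomputable def SJ (W : ℕ) [NeZero W] {k : ℕ} (J : Finset (Fin k)) (b₀ : Fin k → (ZMod W)ˣ) : ℝ :=
  ∑ b : Fin k → (ZMod W)ˣ, if ∀ i ∈ J, b i = b₀ i then 1 / vv b else 0

/-- the full sum -/
noncomputable def S0 (W : ℕ) [NeZero W] (k : ℕ) : ℝ := ∑ b : Fin k → (ZMod W)ˣ, 1 / vv b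

lemma SJ_empty (W : ℕ) [NeZero W] {k : ℕ} (b₀ : Fin k → (ZMod W)ˣ) : SJ W ∅ b₀ = S0 W k := by
  unfold SJ S0
  exact sum_congr rfl fun b _ => by rw [if_pos (by simp)]

lemma SJ_nonneg (W : ℕ) [NeZero W] {k : ℕ} (J : Finset (Fin k)) (b₀ : Fin k → (ZMod W)ˣ) :
    0 ≤ SJ W J b₀ := by
  unfold SJ
  refine sum_nonneg fun b _ => ?_
  split_ifs
  · have := vv_pos b
    positivity
  · exact le_rfl

lemma S0_nonneg (W : ℕ) [NeZero W] (k : ℕ) : 0 ≤ S0 W k := by
  unfold S0
  refine sum_nonneg fun b _ => ?_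
  have := vv_pos b
  positivity

/-! ## Primes -/

lemma vv_prime {k p : ℕ} [Fact p.Prime] (b : Fin k → (ZMod p)ˣ) :
    vv b = 1 + ((univ \ univ.image b).card : ℝ) := by
  classical
  have hp := (Fact.out : p.Prime)
  have h1 : VV (fun i => (b i : ZMod p)) = univ \ univ.image (fun i => -(b i : ZMod p)) := by
    unfold VV
    ext c
    simp only [mem_filter, mem_univ, true_and, mem_sdiff, mem_image, not_exists]
    refine forall_congr' fun i => ?_
    rw [isUnit_iff_ne_zero, ne_eq, not_iff_not, add_eq_zero_iff_eq_neg]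
    exact eq_comm
  have h2 : univ.image (fun i => -(b i : ZMod p)) =
      (univ.image b).image (fun u : (ZMod p)ˣ => -(u : ZMod p)) := by
    rw [image_image]
    rfl
  have h3 : (univ.image (fun i => -(b i : ZMod p))).card = (univ.image b).card := by
    rw [h2, card_image_of_injective]
    intro u v huv
    exact Units.ext (neg_injective huv)
  unfold vv
  rw [h1, card_sdiff_of_subset (subset_univ _), card_sdiff_of_subset (subset_univ _), h3, card_univ,
    card_univ, ZMod.card, ZMod.card_units_eq_totient, Nat.totient_prime hp]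
  have h4 : (univ.image b).card ≤ p - 1 := by
    have := card_le_univ (univ.image b)
    rwa [ZMod.card_units_eq_totient, Nat.totient_prime hp] at this
  have h5 := hp.one_lt
  have h6 : p - (univ.image b).card = 1 + (p - 1 - (univ.image b).card) := by omega
  rw [h6]
  push_cast
  ring

/-- the local factor -/
noncomputable def RR (p j : ℕ) : ℝ := if j = 0 then 1 else ((p : ℝ) - 1) / (p - (min j (p - 1) : ℕ))

lemma RR_nonneg {p : ℕ} (hp : p.Prime) (j : ℕ) : 0 ≤ RR p j := by
  unfold RR
  split_ifs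
  · exact zero_le_one
  · have h1 : (1 : ℝ) ≤ p := by exact_mod_cast hp.one_lt.le
    have h2 : ((min j (p - 1) : ℕ) : ℝ) ≤ p := by
      exact_mod_cast (min_le_right _ _).trans (Nat.sub_le _ _)
    apply div_nonneg <;> linarith

lemma claim_prime {p : ℕ} [Fact p.Prime] {k : ℕ} (J : Finset (Fin k)) (b₀ : Fin k → (ZMod p)ˣ) :
    SJ p J b₀ * (Nat.totient p : ℝ) ^ J.card ≤ RR p J.card * S0 p k := by
  classical
  have hp := (Fact.out : p.Prime)
  rcases J.eq_empty_or_nonempty with rfl | hJ
  · rw [SJ_empty, card_empty, pow_zero, mul_one]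
    unfold RR
    rw [if_pos rfl, one_mul]
  · have h := Occ.local_bound J hJ b₀
    have hcard : Fintype.card (ZMod p)ˣ = p - 1 := by
      rw [ZMod.card_units_eq_totient, Nat.totient_prime hp]
    have hp1 : (1 : ℝ) ≤ p := by exact_mod_cast hp.one_lt.le
    have hp2 : ((p - 1 : ℕ) : ℝ) = p - 1 := by
      rw [Nat.cast_sub hp.one_lt.le, Nat.cast_one]
    have e1 : ∑ b : Fin k → (ZMod p)ˣ, (if ∀ i ∈ J, b i = b₀ i then Occ.wt b else 0) = SJ p J b₀ := by
      unfold SJ
      refine sum_congr rfl fun b _ => ?_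
      unfold Occ.wt
      rw [vv_prime]
    have e2 : ∑ b : Fin k → (ZMod p)ˣ, Occ.wt b = S0 p k := by
      unfold S0
      refine sum_congr rfl fun b _ => ?_
      unfold Occ.wt
      rw [vv_prime]
    rw [e1, e2, hcard, hp2] at h
    have hJ0 : J.card ≠ 0 := (card_pos.2 hJ).ne'
    unfold RR
    rw [if_neg hJ0, Nat.totient_prime hp, hp2]
    have hmin : ((min J.card (p - 1) : ℕ) : ℝ) ≤ p - 1 := by
      rw [← hp2]
      exact_mod_cast min_le_right _ _
    rw [div_mul_eq_mul_div, le_div_iff₀ (by linarith)]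
    calc SJ p J b₀ * ((p : ℝ) - 1) ^ J.card * ((p : ℝ) - (min J.card (p - 1) : ℕ))
        = SJ p J b₀ * (((p : ℝ) - 1) ^ J.card * ((p : ℝ) - 1 + 1 - (min J.card (p - 1) : ℕ))) := by ring
      _ ≤ _ := h

/-! ## Multiplicativity -/

lemma VV_mul {k m n : ℕ} [NeZero m] [NeZero n] [NeZero (m * n)] (h : m.Coprime n)
    (b : Fin k → ZMod (m * n)) :
    (VV b).card = (VV (fun i => (ZMod.chineseRemainder h (b i)).1)).card *
      (VV (fun i => (ZMod.chineseRemainder h (b i)).2)).card := by
  classical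
  rw [← card_product]
  refine card_bij' (fun c _ => ZMod.chineseRemainder h c) (fun x _ => (ZMod.chineseRemainder h).symm x)
    ?_ ?_ ?_ ?_
  · intro c hc
    unfold VV at hc ⊢
    rw [mem_product, mem_filter, mem_filter]
    have hc' := (mem_filter.1 hc).2
    refine ⟨⟨mem_univ _, fun i => ?_⟩, mem_univ _, fun i => ?_⟩
    · have := (Prod.isUnit_iff.1 ((MulEquiv.isUnit_map (ZMod.chineseRemainder h)).2 (hc' i))).1
      rwa [map_add] at this
    · have := (Prod.isUnit_iff.1 ((MulEquiv.isUnit_map (ZMod.chineseRemainder h)).2 (hc' i))).2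
      rwa [map_add] at this
  · intro x hx
    unfold VV at hx ⊢
    rw [mem_product, mem_filter, mem_filter] at hx
    rw [mem_filter]
    refine ⟨mem_univ _, fun i => ?_⟩
    rw [← MulEquiv.isUnit_map (ZMod.chineseRemainder h), map_add, RingEquiv.apply_symm_apply]
    exact Prod.isUnit_iff.2 ⟨hx.1.2 i, hx.2.2 i⟩
  · intro c _
    exact RingEquiv.symm_apply_apply _ _
  · intro x _
    exact RingEquiv.apply_symm_apply _ _

/-- the Chinese remainder theorem for units -/
noncomputable def ue {m n : ℕ} (h : m.Coprime n) : (ZMod (m * n))ˣ ≃* (ZMod m)ˣ × (ZMod n)ˣ :=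
  (Units.mapEquiv (ZMod.chineseRemainder h).toMulEquiv).trans MulEquiv.prodUnits

lemma vv_mul {k m n : ℕ} [NeZero m] [NeZero n] [NeZero (m * n)] (h : m.Coprime n)
    (b : Fin k → (ZMod (m * n))ˣ) :
    vv b = vv (fun i => (ue h (b i)).1) * vv (fun i => (ue h (b i)).2) := by
  unfold vv
  rw [VV_mul h]
  push_cast
  rfl

lemma SJ_mul {k m n : ℕ} [NeZero m] [NeZero n] [NeZero (m * n)] (h : m.Coprime n)
    (J : Finset (Fin k)) (b₀ : Fin k → (ZMod (m * n))ˣ) :
    SJ (m * n) J b₀ = SJ m J (fun i => (ue h (b₀ i)).1) * SJ n J (fun i => (ue h (b₀ i)).2) := by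
  classical
  unfold SJ
  rw [sum_mul_sum, ← Fintype.sum_prod_type']
  refine Fintype.sum_equiv ((Equiv.arrowCongr (Equiv.refl _) (ue h).toEquiv).trans
    (Equiv.arrowProdEquivProdArrow _ _ _)) _ _ fun b => ?_
  change _ = (if ∀ i ∈ J, (ue h (b i)).1 = (ue h (b₀ i)).1 then 1 / vv (fun i => (ue h (b i)).1) else 0) *
    (if ∀ i ∈ J, (ue h (b i)).2 = (ue h (b₀ i)).2 then 1 / vv (fun i => (ue h (b i)).2) else 0)
  by_cases hb : ∀ i ∈ J, b i = b₀ i
  · rw [if_pos hb, if_pos fun i hi => by rw [hb i hi], if_pos fun i hi => by rw [hb i hi], vv_mul h,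
      one_div_mul_one_div]
  · rw [if_neg hb]
    push Not at hb
    obtain ⟨i, hi, hne⟩ := hb
    by_cases h1 : (ue h (b i)).1 = (ue h (b₀ i)).1
    · have h2 : (ue h (b i)).2 ≠ (ue h (b₀ i)).2 := fun h2 =>
        hne ((ue h).injective (Prod.ext h1 h2))
      rw [if_neg (c := ∀ i ∈ J, (ue h (b i)).2 = (ue h (b₀ i)).2) fun h3 => h2 (h3 i hi), mul_zero]
    · rw [if_neg (c := ∀ i ∈ J, (ue h (b i)).1 = (ue h (b₀ i)).1) fun h3 => h1 (h3 i hi), zero_mul]

lemma S0_mul {m n : ℕ} [NeZero m] [NeZero n] [NeZero (m * n)] (h : m.Coprime n) (k : ℕ) :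
    S0 (m * n) k = S0 m k * S0 n k := by
  have h1 := SJ_mul h (∅ : Finset (Fin k)) (fun _ => 1)
  rwa [SJ_empty, SJ_empty, SJ_empty] at h1

lemma claim_one {k : ℕ} (J : Finset (Fin k)) (b₀ : Fin k → (ZMod 1)ˣ) :
    SJ 1 J b₀ * (Nat.totient 1 : ℝ) ^ J.card ≤ S0 1 k := by
  rw [Nat.totient_one, Nat.cast_one, one_pow, mul_one]
  unfold SJ S0
  refine sum_le_sum fun b _ => ?_
  split_ifs
  · exact le_rfl
  · have := vv_pos b
    positivity

theorem claim_all {k : ℕ} (J : Finset (Fin k)) (P : Finset ℕ) : (∀ p ∈ P, p.Prime) →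
    ∀ (W : ℕ) [NeZero W], W = ∏ p ∈ P, p → ∀ b₀ : Fin k → (ZMod W)ˣ,
    SJ W J b₀ * (Nat.totient W : ℝ) ^ J.card ≤ (∏ p ∈ P, RR p J.card) * S0 W k := by
  classical
  induction P using Finset.induction_on with
  | empty =>
    intro _ W _ hW b₀
    rw [prod_empty] at hW
    subst hW
    rw [prod_empty, one_mul]
    convert claim_one J b₀
  | insert p P hp ih =>
    intro hP W _ hW b₀
    rw [prod_insert hp] at hW
    have hpp : p.Prime := hP p (mem_insert_self _ _)
    have hP' : ∀ q ∈ P, q.Prime := fun q hq => hP q (mem_insert_of_mem hq)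
    haveI : Fact p.Prime := ⟨hpp⟩
    haveI : NeZero p := ⟨hpp.ne_zero⟩
    obtain ⟨n, hn⟩ : ∃ n, n = ∏ q ∈ P, q := ⟨_, rfl⟩
    haveI : NeZero n := ⟨by rw [hn]; exact (prod_pos fun q hq => (hP' q hq).pos).ne'⟩
    have hcop : p.Coprime n := by
      rw [hn]
      apply Nat.Coprime.prod_right
      intro q hq
      exact (Nat.coprime_primes hpp (hP' q hq)).2 fun h => hp (h ▸ hq)
    rw [← hn] at hW
    subst hW
    rw [SJ_mul hcop, S0_mul hcop, prod_insert hp, Nat.totient_mul hcop, Nat.cast_mul, mul_pow]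
    have h1 := claim_prime J (fun i => (ue hcop (b₀ i)).1)
    have h2 := ih hP' n hn (fun i => (ue hcop (b₀ i)).2)
    have h3 : 0 ≤ SJ n J (fun i => (ue hcop (b₀ i)).2) * (Nat.totient n : ℝ) ^ J.card :=
      mul_nonneg (SJ_nonneg _ _ _) (by positivity)
    have h4 : 0 ≤ RR p J.card * S0 p k := mul_nonneg (RR_nonneg hpp _) (S0_nonneg _ _)
    calc _ = (SJ p J (fun i => (ue hcop (b₀ i)).1) * (Nat.totient p : ℝ) ^ J.card) *
          (SJ n J (fun i => (ue hcop (b₀ i)).2) * (Nat.totient n : ℝ) ^ J.card) := by ring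
      _ ≤ (RR p J.card * S0 p k) * ((∏ q ∈ P, RR q J.card) * S0 n k) := mul_le_mul h1 h2 h3 h4
      _ = _ := by ring

/-! ## The size of the product of the local factors -/

lemma RR_le {p : ℕ} (hp : p.Prime) {j : ℕ} (hj : 1 ≤ j) :
    RR p j ≤ (if p ≤ 2 * j then (p : ℝ) else 1) * Real.exp (2 * j * (1 / p)) := by
  have hp1 : (1 : ℝ) ≤ p := by exact_mod_cast hp.one_lt.le
  have hp0 : (0 : ℝ) < p := by linarith
  have hj1 : (1 : ℝ) ≤ j := by exact_mod_cast hj
  have hexp : 2 * (j : ℝ) * (1 / p) + 1 ≤ Real.exp (2 * j * (1 / p)) := Real.add_one_le_exp _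
  have hpos : 0 ≤ 2 * (j : ℝ) * (1 / p) := by positivity
  unfold RR
  rw [if_neg (by omega)]
  split_ifs with h
  · have h1 : ((min j (p - 1) : ℕ) : ℝ) ≤ p - 1 := by
      have : ((p - 1 : ℕ) : ℝ) = p - 1 := by
        rw [Nat.cast_sub hp.one_lt.le, Nat.cast_one]
      rw [← this]
      exact_mod_cast min_le_right _ _
    calc ((p : ℝ) - 1) / (p - (min j (p - 1) : ℕ)) ≤ ((p : ℝ) - 1) / 1 := by
          apply div_le_div_of_nonneg_left (by linarith) one_pos (by linarith)
      _ ≤ p * 1 := by linarith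
      _ ≤ p * Real.exp (2 * j * (1 / p)) := by
          apply mul_le_mul_of_nonneg_left _ hp0.le
          linarith
  · have h1 : min j (p - 1) = j := by
      apply min_eq_left
      omega
    rw [h1, one_mul]
    have h2 : (2 * j : ℝ) < p := by
      push Not at h
      exact_mod_cast h
    refine le_trans ?_ hexp
    rw [div_le_iff₀ (by linarith)]
    have h3 : 2 * (j : ℝ) * (1 / p) * (p - j) = 2 * j - 2 * j * (j / p) := by
      field_simp
    have h4 : (j : ℝ) / p ≤ 1 / 2 := by
      rw [div_le_div_iff₀ hp0 (by norm_num)]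
      linarith
    nlinarith

lemma prod_RR_le (w j : ℕ) (hw : 2 ≤ w) :
    ∏ p ∈ (range (w + 1)).filter Nat.Prime, RR p j ≤ (120 * (w : ℝ) ^ 2) ^ j := by
  rcases Nat.eq_zero_or_pos j with rfl | hj
  · rw [pow_zero]
    apply le_of_eq
    apply prod_eq_one
    intro p _
    unfold RR
    rw [if_pos rfl]
  · set P := (range (w + 1)).filter Nat.Prime with hP
    have hPp : ∀ p ∈ P, p.Prime := fun p hp => (mem_filter.1 hp).2
    have hw0 : (0 : ℝ) < w := by exact_mod_cast (by omega : 0 < w)
    have h1 : ∏ p ∈ P, RR p j ≤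
        (∏ p ∈ P, (if p ≤ 2 * j then (p : ℝ) else 1)) * ∏ p ∈ P, Real.exp (2 * j * (1 / p)) := by
      rw [← prod_mul_distrib]
      exact prod_le_prod (fun p hp => RR_nonneg (hPp p hp) j) fun p hp => RR_le (hPp p hp) hj
    have h2 : ∏ p ∈ P, (if p ≤ 2 * j then (p : ℝ) else 1) ≤ 16 ^ j := by
      rw [prod_ite, prod_const_one, mul_one]
      have h3 : ∏ p ∈ P.filter (fun p => p ≤ 2 * j), p ≤ primorial (2 * j) := by
        unfold primorial
        apply prod_le_prod_of_subset_of_one_le'
        · intro p hp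
          obtain ⟨h4, h5⟩ := mem_filter.1 hp
          exact mem_filter.2 ⟨mem_range.2 (by omega), hPp p h4⟩
        · intro p hp _
          exact (mem_filter.1 hp).2.one_lt.le
      have h4 : ∏ p ∈ P.filter (fun p => p ≤ 2 * j), p ≤ 16 ^ j := by
        refine h3.trans ((primorial_le_four_pow _).trans (le_of_eq ?_))
        rw [pow_mul]
        norm_num
      have h5 : ((∏ p ∈ P.filter (fun p => p ≤ 2 * j), p : ℕ) : ℝ) ≤ ((16 ^ j : ℕ) : ℝ) := by
        exact_mod_cast h4
      push_cast at h5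
      exact h5
    have h3 : ∏ p ∈ P, Real.exp (2 * j * (1 / p)) ≤ (Real.exp 1 * w) ^ (2 * j) := by
      rw [← Real.exp_sum, ← mul_sum]
      have h4 : ∑ p ∈ P, (1 : ℝ) / p ≤ 1 + Real.log w := by
        calc ∑ p ∈ P, (1 : ℝ) / p ≤ ∑ n ∈ Icc 1 w, (1 : ℝ) / n := by
              apply sum_le_sum_of_subset_of_nonneg
              · intro p hp
                have h5 := hPp p hp
                have h6 := mem_range.1 (mem_filter.1 hp).1
                exact mem_Icc.2 ⟨h5.one_lt.le, by omega⟩
              · intro _ _ _; positivity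
          _ = (harmonic w : ℝ) := by
              rw [harmonic_eq_sum_Icc]
              push_cast
              simp only [one_div]
          _ ≤ _ := harmonic_le_one_add_log w
      have h5 : (Real.exp 1 * w) ^ (2 * j) = Real.exp (2 * j * (1 + Real.log w)) := by
        rw [← Real.exp_log hw0, ← Real.exp_add, ← Real.exp_nat_mul, Real.log_exp]
        push_cast
        ring_nf
      rw [h5]
      apply Real.exp_le_exp.2
      apply mul_le_mul_of_nonneg_left h4 (by positivity)
    have h4 : (0 : ℝ) ≤ ∏ p ∈ P, Real.exp (2 * j * (1 / p)) := prod_nonneg fun _ _ => (Real.exp_pos _).le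
    calc ∏ p ∈ P, RR p j ≤ 16 ^ j * (Real.exp 1 * w) ^ (2 * j) :=
          h1.trans (mul_le_mul h2 h3 h4 (by positivity))
      _ = (16 * Real.exp 1 ^ 2 * (w : ℝ) ^ 2) ^ j := by
          rw [pow_mul, ← mul_pow]
          congr 1
          ring
      _ ≤ (120 * (w : ℝ) ^ 2) ^ j := by
          apply pow_le_pow_left₀ (by positivity)
          apply mul_le_mul_of_nonneg_right _ (by positivity)
          have h5 := Real.exp_one_lt_d9
          have h6 := Real.exp_pos 1
          nlinarith

/-! ## The change of variables -/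

lemma VV_card_shift {k W : ℕ} [NeZero W] (h : Fin k → ZMod W) (c : ZMod W) :
    (VV (fun i => c + h i)).card = (VV h).card := by
  classical
  refine card_bij' (fun d _ => d + c) (fun d _ => d - c) ?_ ?_ ?_ ?_
  · intro d hd
    unfold VV at hd ⊢
    rw [mem_filter] at hd ⊢
    refine ⟨mem_univ _, fun i => ?_⟩
    have := hd.2 i
    rwa [← add_assoc] at this
  · intro d hd
    unfold VV at hd ⊢
    rw [mem_filter] at hd ⊢
    refine ⟨mem_univ _, fun i => ?_⟩
    have := hd.2 i
    rwa [← add_assoc, sub_add_cancel]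
  · intro d _
    exact add_sub_cancel_right d c
  · intro d _
    exact sub_add_cancel d c

lemma reindex {k W : ℕ} [NeZero W] (g : (Fin k → ZMod W) → ℝ) :
    ∑ h ∈ AdmZ k W, (1 / ((VV h).card : ℝ)) * ∑ c ∈ VV h, g (fun i => c + h i) =
      W * ∑ b : Fin k → (ZMod W)ˣ, (1 / vv b) * g (fun i => (b i : ZMod W)) := by
  classical
  -- all vectors
  have h1 : ∑ h ∈ AdmZ k W, (1 / ((VV h).card : ℝ)) * ∑ c ∈ VV h, g (fun i => c + h i) =
      ∑ h : Fin k → ZMod W, ∑ c : ZMod W,
        if c ∈ VV h then (1 / ((VV h).card : ℝ)) * g (fun i => c + h i) else 0 := by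
    have h2 : ∀ h : Fin k → ZMod W, (1 / ((VV h).card : ℝ)) * ∑ c ∈ VV h, g (fun i => c + h i) =
        ∑ c : ZMod W, if c ∈ VV h then (1 / ((VV h).card : ℝ)) * g (fun i => c + h i) else 0 := by
      intro h
      rw [← sum_filter, mul_sum]
      apply sum_congr _ fun _ _ => rfl
      ext c
      simp
    rw [← sum_congr rfl fun h _ => h2 h]
    apply sum_subset (subset_univ _)
    intro h _ hn
    have h3 : VV h = ∅ := by
      by_contra hne
      apply hn
      unfold AdmZ
      exact mem_filter.2 ⟨mem_univ _, nonempty_iff_ne_empty.2 hne⟩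
    rw [h3, sum_empty, mul_zero]
  rw [h1, sum_comm]
  have h2 : ∀ c : ZMod W, ∑ h : Fin k → ZMod W,
      (if c ∈ VV h then (1 / ((VV h).card : ℝ)) * g (fun i => c + h i) else 0) =
      ∑ b : Fin k → (ZMod W)ˣ, (1 / vv b) * g (fun i => (b i : ZMod W)) := by
    intro c
    have h3 : ∑ h : Fin k → ZMod W,
        (if c ∈ VV h then (1 / ((VV h).card : ℝ)) * g (fun i => c + h i) else 0) =
        ∑ b : Fin k → ZMod W, if ∀ i, IsUnit (b i) then (1 / ((VV b).card : ℝ)) * g b else 0 := by
      refine Fintype.sum_equiv (Equiv.addLeft (fun _ => c)) _ _ fun h => ?_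
      have e1 : (Equiv.addLeft (fun _ : Fin k => c)) h = fun i => c + h i := rfl
      rw [e1, VV_card_shift]
      have e2 : (c ∈ VV h) ↔ ∀ i, IsUnit (c + h i) := by
        unfold VV
        simp
      by_cases h4 : c ∈ VV h
      · rw [if_pos h4, if_pos (e2.1 h4)]
      · rw [if_neg h4, if_neg fun h5 => h4 (e2.2 h5)]
    rw [h3, ← sum_filter]
    refine sum_bij' (fun b hb => fun i => ((mem_filter.1 hb).2 i).unit)
      (fun b _ => fun i => (b i : ZMod W)) ?_ ?_ ?_ ?_ ?_
    · intro b _; exact mem_univ _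
    · intro b _
      exact mem_filter.2 ⟨mem_univ _, fun i => (b i).isUnit⟩
    · intro b hb; rfl
    · intro b _
      funext i
      exact Units.ext rfl
    · intro b hb
      rfl
  rw [sum_congr rfl fun c _ => h2 c, sum_const, card_univ, ZMod.card, nsmul_eq_mul]

/-! ## The theorem -/

lemma expand {k W : ℕ} [NeZero W] (B' : Finset (ZMod W)ˣ) (C : ℝ) (b : Fin k → (ZMod W)ˣ) :
    ∏ i : Fin k, (1 + C * (if b i ∈ B' then 1 else 0)) =
      ∑ J ∈ (univ : Finset (Fin k)).powerset, C ^ J.card *
        ∑ b₀ ∈ Fintype.piFinset (fun i : Fin k => if i ∈ J then B' else {1}),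
          (if ∀ i ∈ J, b i = b₀ i then 1 else 0) := by
  classical
  rw [prod_one_add]
  apply sum_congr rfl
  intro J _
  rw [prod_mul_distrib, prod_const]
  congr 1
  by_cases h : ∀ i ∈ J, b i ∈ B'
  · rw [prod_eq_one fun i hi => by rw [if_pos (h i hi)]]
    have h2 : ∀ b₀ ∈ Fintype.piFinset (fun i : Fin k => if i ∈ J then B' else {1}),
        (if ∀ i ∈ J, b i = b₀ i then (1 : ℝ) else 0) =
          if b₀ = (fun i => if i ∈ J then b i else 1) then 1 else 0 := by
      intro b₀ hb₀
      rw [Fintype.mem_piFinset] at hb₀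
      have h3 : (∀ i ∈ J, b i = b₀ i) ↔ b₀ = (fun i => if i ∈ J then b i else 1) := by
        constructor
        · intro h4
          funext i
          by_cases hi : i ∈ J
          · rw [if_pos hi, h4 i hi]
          · have h5 := hb₀ i
            rw [if_neg hi, mem_singleton] at h5
            rw [if_neg hi, h5]
        · intro h4 i hi
          rw [h4]
          simp [hi]
      by_cases h4 : ∀ i ∈ J, b i = b₀ i
      · rw [if_pos h4, if_pos (h3.1 h4)]
      · rw [if_neg h4, if_neg fun h5 => h4 (h3.2 h5)]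
    rw [sum_congr rfl h2, sum_ite_eq', if_pos]
    rw [Fintype.mem_piFinset]
    intro i
    by_cases hi : i ∈ J
    · simp only [if_pos hi]
      exact h i hi
    · simp only [if_neg hi]
      exact mem_singleton_self _
  · push Not at h
    obtain ⟨i, hi, hib⟩ := h
    rw [prod_eq_zero hi (if_neg hib)]
    symm
    apply sum_eq_zero
    intro b₀ hb₀
    rw [Fintype.mem_piFinset] at hb₀
    apply if_neg
    intro h4
    have h5 := hb₀ i
    rw [if_pos hi, ← h4 i hi] at h5
    exact hib h5

theorem t_MU : S_MU := by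
  classical
  intro k w W _ B C hW hw hC hB
  set φ : ℝ := (Nat.totient W : ℝ) with hφ
  have hφ0 : 0 < φ := by
    rw [hφ]
    exact_mod_cast Nat.totient_pos.2 (Nat.pos_of_ne_zero (NeZero.ne W))
  set D : ℝ := 120 * (w : ℝ) ^ 2 with hD
  have hD0 : 0 ≤ D := by positivity
  set B' : Finset (ZMod W)ˣ := univ.filter (fun u => (u : ZMod W) ∈ B) with hB'
  have hBB : (B'.card : ℝ) ≤ B.card := by
    have : B'.card ≤ B.card := by
      apply card_le_card_of_injOn (fun u : (ZMod W)ˣ => (u : ZMod W))
      · intro u hu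
        exact (mem_filter.1 hu).2
      · intro u _ v _ h
        exact Units.ext h
    exact_mod_cast this
  -- the number of admissible vectors
  have hAdm : ((AdmZ k W).card : ℝ) = W * S0 W k := by
    have h1 := reindex (k := k) (W := W) (fun _ => 1)
    simp only [mul_one, sum_const, nsmul_eq_mul] at h1
    unfold S0
    rw [← h1, ← nsmul_one, ← sum_const]
    apply sum_congr rfl
    intro h hh
    have h2 : 0 < (VV h).card := by
      unfold AdmZ at hh
      exact card_pos.2 (mem_filter.1 hh).2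
    have h3 : ((VV h).card : ℝ) ≠ 0 := by exact_mod_cast h2.ne'
    field_simp
  have hleft : ∑ h ∈ AdmZ k W, (1 / ((VV h).card : ℝ)) * ∑ c ∈ VV h,
      ∏ i : Fin k, (1 + C * (if c + h i ∈ B then 1 else 0)) =
      W * ∑ b : Fin k → (ZMod W)ˣ, (1 / vv b) * ∏ i : Fin k, (1 + C * (if b i ∈ B' then 1 else 0)) := by
    rw [reindex (k := k) (W := W) (fun b => ∏ i : Fin k, (1 + C * (if b i ∈ B then 1 else 0)))]
    congr 1
    apply sum_congr rfl
    intro b _
    congr 1
    apply prod_congr rfl
    intro i _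
    have : ((b i : ZMod W) ∈ B) ↔ b i ∈ B' := by
      rw [hB', mem_filter]
      simp
    by_cases h : b i ∈ B'
    · rw [if_pos h, if_pos (this.2 h)]
    · rw [if_neg h, if_neg fun h' => h (this.1 h')]
  -- the bound for the marginals
  have hSJ : ∀ (J : Finset (Fin k)) (b₀ : Fin k → (ZMod W)ˣ), SJ W J b₀ ≤ (D / φ) ^ J.card * S0 W k := by
    intro J b₀
    have h1 := claim_all J ((range (w + 1)).filter Nat.Prime) (fun p hp => (mem_filter.1 hp).2) W
      (by rw [hW]; rfl) b₀
    have h2 := prod_RR_le w J.card hw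
    have h3 : SJ W J b₀ * φ ^ J.card ≤ D ^ J.card * S0 W k :=
      h1.trans (mul_le_mul_of_nonneg_right h2 (S0_nonneg _ _))
    rw [div_pow, div_mul_eq_mul_div, le_div_iff₀ (by positivity)]
    exact h3
  rw [hleft, hAdm]
  have hmain : ∑ b : Fin k → (ZMod W)ˣ, (1 / vv b) *
      ∏ i : Fin k, (1 + C * (if b i ∈ B' then 1 else 0)) ≤ (1 + C * D * B.card / φ) ^ k * S0 W k := by
    calc ∑ b : Fin k → (ZMod W)ˣ, (1 / vv b) * ∏ i : Fin k, (1 + C * (if b i ∈ B' then 1 else 0))
        = ∑ J ∈ (univ : Finset (Fin k)).powerset, C ^ J.card *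
          ∑ b₀ ∈ Fintype.piFinset (fun i : Fin k => if i ∈ J then B' else {1}), SJ W J b₀ := by
          simp_rw [expand B' C, mul_sum]
          rw [sum_comm]
          apply sum_congr rfl
          intro J _
          rw [sum_comm]
          apply sum_congr rfl
          intro b₀ _
          unfold SJ
          rw [mul_sum]
          apply sum_congr rfl
          intro b _
          split_ifs <;> ring
      _ ≤ ∑ J ∈ (univ : Finset (Fin k)).powerset, (C * D * B.card / φ) ^ J.card * S0 W k := by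
          apply sum_le_sum
          intro J _
          have h1 : ∑ b₀ ∈ Fintype.piFinset (fun i : Fin k => if i ∈ J then B' else {1}), SJ W J b₀ ≤
              (B.card : ℝ) ^ J.card * ((D / φ) ^ J.card * S0 W k) := by
            have h2 := sum_le_card_nsmul
              (Fintype.piFinset (fun i : Fin k => if i ∈ J then B' else ({1} : Finset (ZMod W)ˣ)))
              (fun b₀ => SJ W J b₀) ((D / φ) ^ J.card * S0 W k) (fun b₀ _ => hSJ J b₀)
            refine h2.trans ?_
            rw [nsmul_eq_mul]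
            apply mul_le_mul_of_nonneg_right _
              (mul_nonneg (by positivity) (S0_nonneg _ _))
            rw [Fintype.card_piFinset]
            have h7 : ∀ i : Fin k, (if i ∈ J then B' else ({1} : Finset (ZMod W)ˣ)).card =
                if i ∈ J then B'.card else 1 := by
              intro i
              split_ifs
              · rfl
              · exact card_singleton _
            rw [prod_congr rfl fun i _ => h7 i, prod_ite_mem, univ_inter, prod_const]
            push_cast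
            exact pow_le_pow_left₀ (by positivity) hBB _
          calc C ^ J.card * ∑ b₀ ∈ Fintype.piFinset (fun i : Fin k => if i ∈ J then B' else {1}), SJ W J b₀
              ≤ C ^ J.card * ((B.card : ℝ) ^ J.card * ((D / φ) ^ J.card * S0 W k)) :=
                mul_le_mul_of_nonneg_left h1 (by positivity)
            _ = (C * D * B.card / φ) ^ J.card * S0 W k := by
                rw [show C * D * B.card / φ = C * (B.card * (D / φ)) by ring, mul_pow, mul_pow]
                ring
      _ = (1 + C * D * B.card / φ) ^ k * S0 W k := by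
          rw [← sum_mul]
          congr 1
          have h1 := prod_one_add (f := fun _ : Fin k => C * D * B.card / φ) univ
          simp only [prod_const, card_univ, Fintype.card_fin] at h1
          exact h1.symm
  have hW0 : (0 : ℝ) ≤ W := by positivity
  calc W * ∑ b : Fin k → (ZMod W)ˣ, (1 / vv b) * ∏ i : Fin k, (1 + C * (if b i ∈ B' then 1 else 0))
      ≤ W * ((1 + C * D * B.card / φ) ^ k * S0 W k) := mul_le_mul_of_nonneg_left hmain hW0
    _ = (1 + C * D * B.card / φ) ^ k * (W * S0 W k) := by ring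

end Pool.Agent.J4H57.HL
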