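import Mathlib

/-!
# Occupancy lemma for part G of helper81's project HL (helper57)
-/

set_option autoImplicit false

namespace Pool.Agent.J4H57.HL.Occ

open Finset

variable {α : Type*} [Fintype α] [DecidableEq α]

/-- the number of elements outside `T` which are not hit by `f` -/
def miss {ι : Type*} [Fintype ι] (T : Finset α) (f : ι → α) : ℕ := (univ \ (T ∪ univ.image f)).card

/-- total weight of the configurations on top of `T` -/
noncomputable def A (ι : Type*) [Fintype ι] [DecidableEq ι] (T : Finset α) : ℝ :=
  ∑ f : ι → α, 1 / (1 + (miss T f : ℝ))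

variable {ι : Type*} [Fintype ι] [DecidableEq ι]

lemma miss_swap (T : Finset α) {u v : α} (hu : u ∉ T) (hv : v ∉ T) (f : ι → α) :
    miss (insert v T) (fun i => Equiv.swap u v (f i)) = miss (insert u T) f := by
  unfold miss
  have h : univ \ (insert v T ∪ univ.image (fun i => Equiv.swap u v (f i))) =
      (univ \ (insert u T ∪ univ.image f)).map (Equiv.swap u v).toEmbedding := by
    ext x
    simp only [mem_sdiff, mem_univ, true_and, mem_union, mem_insert, mem_image, not_or, mem_map,
      Equiv.coe_toEmbedding, not_exists]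
    have hT : ∀ y ∈ T, Equiv.swap u v y = y := fun y hy =>
      Equiv.swap_apply_of_ne_of_ne (fun h => hu (h ▸ hy)) (fun h => hv (h ▸ hy))
    constructor
    · rintro ⟨⟨h1, h2⟩, h3⟩
      refine ⟨Equiv.swap u v x, ⟨⟨?_, ?_⟩, ?_⟩, Equiv.swap_apply_self _ _ _⟩
      · intro h
        apply h1
        have h4 := congrArg (Equiv.swap u v) h
        rw [Equiv.swap_apply_self, Equiv.swap_apply_left] at h4
        exact h4
      · intro h
        apply h2
        have h4 := hT _ h
        rw [Equiv.swap_apply_self] at h4
        rw [h4]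
        exact h
      · intro i h
        apply h3 i
        rw [h, Equiv.swap_apply_self]
    · rintro ⟨y, ⟨⟨h1, h2⟩, h3⟩, rfl⟩
      refine ⟨⟨?_, ?_⟩, ?_⟩
      · intro h
        apply h1
        have h4 := congrArg (Equiv.swap u v) h
        rw [Equiv.swap_apply_self, Equiv.swap_apply_right] at h4
        exact h4
      · intro h
        apply h2
        have h4 := hT _ h
        rw [Equiv.swap_apply_self] at h4
        rw [h4]
        exact h
      · intro i h
        exact h3 i ((Equiv.swap u v).injective h)
  rw [h, card_map]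

lemma A_swap (T : Finset α) {u v : α} (hu : u ∉ T) (hv : v ∉ T) :
    A ι (insert u T) = A ι (insert v T) := by
  unfold A
  refine Fintype.sum_equiv (Equiv.arrowCongr (Equiv.refl ι) (Equiv.swap u v)) _ _ fun f => ?_
  have : (Equiv.arrowCongr (Equiv.refl ι) (Equiv.swap u v)) f = fun i => Equiv.swap u v (f i) := rfl
  rw [this, miss_swap T hu hv f]

lemma miss_insert (T : Finset α) (f : ι → α) (v : α) :
    miss (insert v T) f = miss T f - (if v ∈ univ \ (T ∪ univ.image f) then 1 else 0) := by
  unfold miss
  have h : univ \ (insert v T ∪ univ.image f) = (univ \ (T ∪ univ.image f)).erase v := by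
    ext x
    simp only [mem_sdiff, mem_univ, true_and, mem_union, mem_insert, mem_erase, not_or]
    tauto
  rw [h, card_erase_eq_ite]
  split_ifs <;> rfl

lemma miss_mono {T T' : Finset α} (h : T ⊆ T') (f : ι → α) : miss T' f ≤ miss T f := by
  unfold miss
  apply card_le_card
  apply sdiff_subset_sdiff (subset_refl _)
  exact union_subset_union_left h

lemma A_mono {T T' : Finset α} (h : T ⊆ T') : A ι T ≤ A ι T' := by
  unfold A
  apply sum_le_sum
  intro f _
  apply one_div_le_one_div_of_le (by positivity)
  have := miss_mono h f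
  have : (miss T' f : ℝ) ≤ miss T f := by exact_mod_cast this
  linarith

lemma A_nonneg (T : Finset α) : 0 ≤ A ι T := sum_nonneg fun _ _ => by positivity

/-- the main step -/
lemma A_insert (T : Finset α) {u : α} (hu : u ∉ T) :
    ((univ \ T).card : ℝ) * A ι (insert u T) ≤ ((univ \ T).card + 1) * A ι T := by
  have h1 : ((univ \ T).card : ℝ) * A ι (insert u T) = ∑ v ∈ univ \ T, A ι (insert v T) := by
    rw [← nsmul_eq_mul, ← sum_const]
    exact sum_congr rfl fun v hv => A_swap T hu (mem_sdiff.1 hv).2
  rw [h1]
  unfold A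
  rw [sum_comm, mul_sum]
  apply sum_le_sum
  intro f _
  set R := univ \ (T ∪ univ.image f) with hR
  have hRT : R ⊆ univ \ T := by
    apply sdiff_subset_sdiff (subset_refl _)
    exact subset_union_left
  set M := miss T f with hM
  have hMR : M = R.card := rfl
  have h2 : ∑ v ∈ univ \ T, 1 / (1 + (miss (insert v T) f : ℝ)) =
      ∑ v ∈ R, 1 / (1 + ((M - 1 : ℕ) : ℝ)) + ∑ v ∈ (univ \ T) \ R, 1 / (1 + (M : ℝ)) := by
    rw [← sum_sdiff hRT, add_comm]
    congr 1
    · apply sum_congr rfl
      intro v hv
      rw [miss_insert, if_pos hv]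
    · apply sum_congr rfl
      intro v hv
      rw [miss_insert, if_neg (mem_sdiff.1 hv).2, Nat.sub_zero]
  rw [h2, sum_const, sum_const, card_sdiff_of_subset hRT, ← hMR, nsmul_eq_mul, nsmul_eq_mul]
  have hMle : M ≤ (univ \ T).card := hMR ▸ card_le_card hRT
  rw [Nat.cast_sub hMle]
  rcases Nat.eq_zero_or_pos M with h | h
  · rw [h]
    simp
  · rw [Nat.cast_sub h]
    have hM0 : (0 : ℝ) < M := by exact_mod_cast h
    have e : (1 : ℝ) + ((M : ℝ) - (1 : ℕ)) = M := by push_cast; ring
    rw [e]
    have e2 : (M : ℝ) * (1 / M) + (((univ \ T).card : ℝ) - M) * (1 / (1 + M)) =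
        ((univ \ T).card + 1) * (1 / (1 + M)) := by
      field_simp
      ring
    rw [e2]

/-- comparison with one element -/
lemma A_le (x : α) : ∀ T : Finset α, T.Nonempty →
    A ι T * ((Fintype.card α : ℝ) + 1 - T.card) ≤ Fintype.card α * A ι ({x} : Finset α) := by
  intro T
  induction T using Finset.induction_on with
  | empty => intro h; exact absurd h (by simp)
  | insert u T hu ih =>
    intro _
    rcases T.eq_empty_or_nonempty with rfl | hT
    · have h1 := A_swap (ι := ι) (∅ : Finset α) (notMem_empty u) (notMem_empty x)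
      have h2 : insert x (∅ : Finset α) = {x} := rfl
      rw [h1, h2]
      simp
      rw [mul_comm]
    · have h1 := ih hT
      have h2 := A_insert (ι := ι) T hu
      have h3 : ((univ \ T).card : ℝ) = Fintype.card α - T.card := by
        rw [card_sdiff_of_subset (subset_univ T), card_univ, Nat.cast_sub (card_le_univ T)]
      rw [h3] at h2
      rw [card_insert_of_notMem hu]
      push_cast
      calc A ι (insert u T) * ((Fintype.card α : ℝ) + 1 - (T.card + 1))
          = ((Fintype.card α : ℝ) - T.card) * A ι (insert u T) := by ring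
        _ ≤ ((Fintype.card α : ℝ) - T.card + 1) * A ι T := h2
        _ = A ι T * ((Fintype.card α : ℝ) + 1 - T.card) := by ring
        _ ≤ _ := h1

/-- the weight of a configuration -/
noncomputable def wt {k : ℕ} (b : Fin k → α) : ℝ := 1 / (1 + ((univ \ univ.image b).card : ℝ))

/-- the sum over the configurations with prescribed values on `J` -/
lemma sum_prescribed {k : ℕ} (J : Finset (Fin k)) (b₀ : Fin k → α) :
    ∑ b : Fin k → α, (if ∀ i ∈ J, b i = b₀ i then wt b else 0) =
      A {i : Fin k // i ∉ J} (J.image b₀) := by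
  classical
  unfold A
  have e := Equiv.piEquivPiSubtypeProd (fun i : Fin k => i ∈ J) (fun _ => α)
  rw [← Finset.sum_filter]
  refine Finset.sum_bij' (fun b _ => fun i : {i : Fin k // i ∉ J} => b i)
    (fun f _ => fun i => if h : i ∈ J then b₀ i else f ⟨i, h⟩) ?_ ?_ ?_ ?_ ?_
  · intro b _; exact mem_univ _
  · intro f _
    refine mem_filter.2 ⟨mem_univ _, fun i hi => ?_⟩
    simp [hi]
  · intro b hb
    have hb' := (mem_filter.1 hb).2
    funext i
    by_cases h : i ∈ J
    · simp only [h, dite_true]
      exact (hb' i h).symm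
    · simp only [h, dite_false]
  · intro f _
    funext i
    simp only [i.2, dite_false]
  · intro b hb
    have hb' := (mem_filter.1 hb).2
    unfold wt miss
    have : univ.image b = J.image b₀ ∪ univ.image (fun i : {i : Fin k // i ∉ J} => b i) := by
      ext x
      simp only [mem_image, mem_univ, true_and, mem_union, Subtype.exists]
      constructor
      · rintro ⟨i, rfl⟩
        by_cases h : i ∈ J
        · exact Or.inl ⟨i, h, (hb' i h).symm⟩
        · exact Or.inr ⟨i, h, rfl⟩
      · rintro (⟨i, h, rfl⟩ | ⟨i, h, rfl⟩)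
        · exact ⟨i, hb' i h⟩
        · exact ⟨i, rfl⟩
    rw [this]

/-- **The local bound.** -/
theorem local_bound {k : ℕ} (J : Finset (Fin k)) (hJ : J.Nonempty) (b₀ : Fin k → α) :
    (∑ b : Fin k → α, (if ∀ i ∈ J, b i = b₀ i then wt b else 0)) *
      ((Fintype.card α : ℝ) ^ J.card * ((Fintype.card α : ℝ) + 1 - (min J.card (Fintype.card α) : ℕ))) ≤
      Fintype.card α * ∑ b : Fin k → α, wt b := by
  classical
  obtain ⟨i₀, hi₀⟩ := hJ
  set x := b₀ i₀ with hx
  -- the total sum
  have htot : (Fintype.card α : ℝ) ^ J.card * A {i : Fin k // i ∉ J} ({x} : Finset α) ≤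
      ∑ b : Fin k → α, wt b := by
    have h1 : ∑ b : Fin k → α, wt b = ∑ b₁ ∈ Fintype.piFinset (fun i : Fin k =>
        if i ∈ J then (univ : Finset α) else {x}),
          ∑ b : Fin k → α, (if ∀ i ∈ J, b i = b₁ i then wt b else 0) := by
      rw [sum_comm]
      apply sum_congr rfl
      intro b _
      rw [Finset.sum_ite, sum_const_zero, add_zero, sum_const]
      have h2 : (Fintype.piFinset (fun i : Fin k => if i ∈ J then (univ : Finset α) else {x})).filter
          (fun b₁ => ∀ i ∈ J, b i = b₁ i) = {fun i => if i ∈ J then b i else x} := by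
        ext b₁
        simp only [mem_filter, Fintype.mem_piFinset, mem_singleton]
        constructor
        · rintro ⟨h3, h4⟩
          funext i
          by_cases h : i ∈ J
          · rw [if_pos h, h4 i h]
          · have h5 := h3 i
            rw [if_neg h, mem_singleton] at h5
            rw [if_neg h, h5]
        · rintro rfl
          refine ⟨fun i => ?_, fun i hi => ?_⟩
          · by_cases h : i ∈ J
            · simp [h]
            · simp [h]
          · simp [hi]
      rw [h2, card_singleton, one_smul]
    rw [h1]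
    have h3 : ∀ b₁ ∈ Fintype.piFinset (fun i : Fin k => if i ∈ J then (univ : Finset α) else {x}),
        A {i : Fin k // i ∉ J} ({x} : Finset α) ≤
          ∑ b : Fin k → α, (if ∀ i ∈ J, b i = b₁ i then wt b else 0) := by
      intro b₁ _
      rw [sum_prescribed]
      have h4 : ({b₁ i₀} : Finset α) ⊆ J.image b₁ := by
        rw [singleton_subset_iff]
        exact mem_image_of_mem _ hi₀
      have h5 := A_swap (ι := {i : Fin k // i ∉ J}) (∅ : Finset α) (notMem_empty x)
        (notMem_empty (b₁ i₀))
      calc A {i : Fin k // i ∉ J} ({x} : Finset α) = A {i : Fin k // i ∉ J} ({b₁ i₀} : Finset α) := h5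
        _ ≤ _ := A_mono h4
    have h4 := card_nsmul_le_sum _ _ _ h3
    rw [nsmul_eq_mul, Fintype.card_piFinset] at h4
    refine le_trans (le_of_eq ?_) h4
    congr 1
    have h6 : ∏ i : Fin k, (if i ∈ J then (univ : Finset α) else {x}).card =
        Fintype.card α ^ J.card := by
      have h7 : ∀ i : Fin k, (if i ∈ J then (univ : Finset α) else {x}).card =
          if i ∈ J then Fintype.card α else 1 := by
        intro i
        split_ifs
        · exact card_univ
        · exact card_singleton x
      rw [prod_congr rfl fun i _ => h7 i, prod_ite_mem, univ_inter, prod_const]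
    rw [h6]
    push_cast
    rfl
  have h1 := A_le (ι := {i : Fin k // i ∉ J}) x (J.image b₀) ⟨x, mem_image_of_mem _ hi₀⟩
  rw [sum_prescribed]
  have hcard : (((J.image b₀).card : ℕ) : ℝ) ≤ ((min J.card (Fintype.card α) : ℕ) : ℝ) := by
    exact_mod_cast le_min card_image_le (card_le_univ _)
  calc A {i : Fin k // i ∉ J} (J.image b₀) *
      ((Fintype.card α : ℝ) ^ J.card * ((Fintype.card α : ℝ) + 1 - (min J.card (Fintype.card α) : ℕ)))
      ≤ A {i : Fin k // i ∉ J} (J.image b₀) *
      ((Fintype.card α : ℝ) ^ J.card * ((Fintype.card α : ℝ) + 1 - (J.image b₀).card)) := by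
        apply mul_le_mul_of_nonneg_left _ (A_nonneg _)
        apply mul_le_mul_of_nonneg_left _ (by positivity)
        linarith
    _ = (Fintype.card α : ℝ) ^ J.card *
        (A {i : Fin k // i ∉ J} (J.image b₀) * ((Fintype.card α : ℝ) + 1 - (J.image b₀).card)) := by ring
    _ ≤ (Fintype.card α : ℝ) ^ J.card * (Fintype.card α * A {i : Fin k // i ∉ J} ({x} : Finset α)) := by
        apply mul_le_mul_of_nonneg_left h1 (by positivity)
    _ = Fintype.card α * ((Fintype.card α : ℝ) ^ J.card * A {i : Fin k // i ∉ J} ({x} : Finset α)) := by ring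
    _ ≤ _ := mul_le_mul_of_nonneg_left htot (by positivity)

end Pool.Agent.J4H57.HL.Occ
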