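import Pool.Agent.J4H81.HL.Stm

/-!
# Hardy-Littlewood on average for growing tuples: the tail of the singular series (helper57)

Part B of the project of helper81 (`Pool.Agent.J4H81.HL.Stm`): proof of `S_TAIL`.
-/

set_option autoImplicit false

namespace Pool.Agent.J4H57.HL

open Finset Pool.Agent.J4H81.HL

/-- the pairs of elements of `A` in the same class modulo `p` -/
def prs (A : Finset ℕ) (p : ℕ) : Finset (ℕ × ℕ) := (A ×ˢ A).filter (fun x => x.1 < x.2 ∧ x.1 % p = x.2 % p)

lemma nu_le_card (A : Finset ℕ) (p : ℕ) : nu A p ≤ A.card := card_image_le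

lemma nu_le (A : Finset ℕ) {p : ℕ} (hp : 0 < p) : nu A p ≤ p := by
  calc nu A p ≤ (range p).card :=
        card_le_card (image_subset_iff.2 fun a _ => mem_range.2 (Nat.mod_lt a hp))
    _ = p := card_range p

lemma card_le_nu_add (A : Finset ℕ) (p : ℕ) : A.card ≤ nu A p + (prs A p).card := by
  classical
  have h1 : (A.filter (fun a => ¬ ∃ b ∈ A, b < a ∧ b % p = a % p)).card ≤ nu A p := by
    refine card_le_card_of_injOn (fun a => a % p) ?_ ?_
    · intro a ha
      exact mem_image_of_mem _ (mem_filter.1 ha).1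
    · intro a ha b hb hab
      simp only [coe_filter, Set.mem_ofPred_eq] at ha hb
      simp only at hab
      rcases lt_trichotomy a b with h | h | h
      · exact absurd ⟨a, ha.1, h, hab⟩ hb.2
      · exact h
      · exact absurd ⟨b, hb.1, h, hab.symm⟩ ha.2
  have h2 : (A.filter (fun a => ∃ b ∈ A, b < a ∧ b % p = a % p)).card ≤ (prs A p).card := by
    have h3 : A.filter (fun a => ∃ b ∈ A, b < a ∧ b % p = a % p) ⊆ (prs A p).image Prod.snd := by
      intro a ha
      obtain ⟨ha1, b, hb, hba, hmod⟩ := mem_filter.1 ha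
      exact mem_image.2 ⟨(b, a), mem_filter.2 ⟨mem_product.2 ⟨hb, ha1⟩, hba, hmod⟩, rfl⟩
    exact (card_le_card h3).trans card_image_le
  have h4 := card_filter_add_card_filter_not (s := A) (fun a => ∃ b ∈ A, b < a ∧ b % p = a % p)
  omega

/-- lower bound for the factor at a large prime -/
lemma loc_lower (A : Finset ℕ) {p : ℕ} (hp : 2 ≤ p) (hk : A.card ≤ p) :
    1 - (A.card : ℝ) ^ 2 / (p : ℝ) ^ 2 ≤ loc A p := by
  have hp0 : (0 : ℝ) < p := by exact_mod_cast (by omega : 0 < p)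
  have hp2 : (2 : ℝ) ≤ p := by exact_mod_cast hp
  have hx : (1 : ℝ) / p < 1 := by rw [div_lt_one hp0]; linarith
  have hx0 : (0 : ℝ) < 1 / p := by positivity
  set x : ℝ := 1 / p with hxdef
  have hden : (0 : ℝ) < (1 - x) ^ A.card := by apply pow_pos; linarith
  have hkx : (A.card : ℝ) * x ≤ 1 := by
    rw [hxdef, mul_one_div, div_le_one hp0]; exact_mod_cast hk
  have h1 : (1 : ℝ) + A.card * x ≤ ((1 - x) ^ A.card)⁻¹ := by
    rw [← inv_pow]
    have h2 : 1 + x ≤ (1 - x)⁻¹ := by
      rw [le_inv_comm₀ (by linarith) (by linarith)]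
      rw [inv_eq_one_div, le_div_iff₀ (by linarith)]
      nlinarith
    calc (1 : ℝ) + A.card * x ≤ (1 + x) ^ A.card := one_add_mul_le_pow (by linarith) _
      _ ≤ _ := pow_le_pow_left₀ (by linarith) h2 _
  unfold loc
  rw [← hxdef, div_eq_mul_inv]
  have h3 : 1 - (A.card : ℝ) * x ≤ 1 - (nu A p : ℝ) / p := by
    have : (nu A p : ℝ) ≤ A.card := by exact_mod_cast nu_le_card A p
    rw [hxdef, mul_one_div]
    have := div_le_div_of_nonneg_right this hp0.le
    linarith
  calc 1 - (A.card : ℝ) ^ 2 / (p : ℝ) ^ 2 = (1 - A.card * x) * (1 + A.card * x) := by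
        rw [hxdef]; field_simp; ring
    _ ≤ (1 - (nu A p : ℝ) / p) * ((1 - x) ^ A.card)⁻¹ := by
        apply mul_le_mul h3 h1 (by positivity) (by linarith)

/-- upper bound for the factor at a large prime -/
lemma loc_upper (A : Finset ℕ) {p : ℕ} (hp : 2 ≤ p) (hk : 2 * A.card ≤ p) :
    loc A p ≤ 1 + 2 * ((prs A p).card : ℝ) / p := by
  have hp0 : (0 : ℝ) < p := by exact_mod_cast (by omega : 0 < p)
  have hp2 : (2 : ℝ) ≤ p := by exact_mod_cast hp
  have hx : (1 : ℝ) / p < 1 := by rw [div_lt_one hp0]; linarith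
  have hx0 : (0 : ℝ) < 1 / p := by positivity
  have hden : (1 : ℝ) - A.card / p ≤ (1 - 1 / (p : ℝ)) ^ A.card := by
    have := one_add_mul_le_pow (a := -(1 / (p : ℝ))) (by linarith) A.card
    calc (1 : ℝ) - A.card / p = 1 + A.card * (-(1 / (p : ℝ))) := by ring
      _ ≤ _ := this
      _ = _ := by ring
  have hhalf : (A.card : ℝ) / p ≤ 1 / 2 := by
    rw [div_le_div_iff₀ hp0 (by norm_num)]
    have : (2 * A.card : ℝ) ≤ p := by exact_mod_cast hk
    linarith
  have hden0 : (1 : ℝ) / 2 ≤ (1 - 1 / (p : ℝ)) ^ A.card := by linarith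
  unfold loc
  rw [div_le_iff₀ (by linarith)]
  have hc : (A.card : ℝ) ≤ nu A p + (prs A p).card := by exact_mod_cast card_le_nu_add A p
  have h5 : 1 - (nu A p : ℝ) / p ≤ 1 - (A.card : ℝ) / p + (prs A p).card / p := by
    have := div_le_div_of_nonneg_right hc hp0.le
    rw [add_div] at this
    linarith
  have h6 : (0 : ℝ) ≤ 2 * ((prs A p).card : ℝ) / p := by positivity
  calc 1 - (nu A p : ℝ) / p ≤ 1 - (A.card : ℝ) / p + (prs A p).card / p := h5
    _ ≤ (1 - 1 / (p : ℝ)) ^ A.card + 2 * ((prs A p).card : ℝ) / p * (1 / 2) := by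
        have : 2 * ((prs A p).card : ℝ) / p * (1 / 2) = (prs A p).card / p := by ring
        linarith
    _ ≤ (1 - 1 / (p : ℝ)) ^ A.card + 2 * ((prs A p).card : ℝ) / p * (1 - 1 / (p : ℝ)) ^ A.card := by
        gcongr
    _ = _ := by ring

lemma loc_nonneg (A : Finset ℕ) {p : ℕ} (hp : 2 ≤ p) : 0 ≤ loc A p := by
  have hp0 : (0 : ℝ) < p := by exact_mod_cast (by omega : 0 < p)
  have hp2 : (2 : ℝ) ≤ p := by exact_mod_cast hp
  have hx : (1 : ℝ) / p < 1 := by rw [div_lt_one hp0]; linarith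
  unfold loc
  apply div_nonneg
  · have : (nu A p : ℝ) / p ≤ 1 := by
      rw [div_le_one hp0]; exact_mod_cast nu_le A (by omega)
    linarith
  · apply pow_nonneg; linarith

/-- the number of prime divisors greater than `z ≥ 3` -/
lemma card_dvd_le {P : Finset ℕ} {z d y : ℕ} (hP : ∀ p ∈ P, p.Prime) (hz : 3 ≤ z) (hPz : ∀ p ∈ P, z < p)
    (hd : 1 ≤ d) (hdy : d ≤ y) : ((P.filter (· ∣ d)).card : ℝ) ≤ Real.log y := by
  have h1 : ∏ p ∈ P.filter (· ∣ d), p ∣ d := by
    apply Finset.prod_primes_dvd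
    · intro p hp; exact (hP p (mem_filter.1 hp).1).prime
    · intro p hp; exact (mem_filter.1 hp).2
  have h2 : z ^ (P.filter (· ∣ d)).card ≤ ∏ p ∈ P.filter (· ∣ d), p :=
    Finset.pow_card_le_prod _ _ _ (fun p hp => (hPz p (mem_filter.1 hp).1).le)
  have h3 : z ^ (P.filter (· ∣ d)).card ≤ y := (h2.trans (Nat.le_of_dvd hd h1)).trans hdy
  have h4 : ((P.filter (· ∣ d)).card : ℝ) * Real.log z ≤ Real.log y := by
    rw [← Real.log_pow]
    apply Real.log_le_log (by positivity)
    exact_mod_cast h3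
  have h5 : (1 : ℝ) ≤ Real.log z := by
    rw [Real.le_log_iff_exp_le (by positivity)]
    have := Real.exp_one_lt_d9
    have : (3 : ℝ) ≤ z := by exact_mod_cast hz
    linarith
  nlinarith [Nat.cast_nonneg (α := ℝ) (P.filter (· ∣ d)).card]

/-- the number of pairs in the same class, summed over large primes -/
lemma sum_prs_le {P : Finset ℕ} {z y : ℕ} {A : Finset ℕ} (hP : ∀ p ∈ P, p.Prime) (hz : 3 ≤ z)
    (hPz : ∀ p ∈ P, z < p) (hA : A ⊆ range (y + 1)) :
    ∑ p ∈ P, ((prs A p).card : ℝ) / p ≤ (A.card : ℝ) ^ 2 * Real.log y / z := by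
  have hz0 : (0 : ℝ) < z := by exact_mod_cast (by omega : 0 < z)
  have h1 : ∀ p ∈ P, ((prs A p).card : ℝ) / p ≤
      ∑ x ∈ (A ×ˢ A).filter (fun x => x.1 < x.2), (if p ∣ x.2 - x.1 then (1 : ℝ) / z else 0) := by
    intro p hp
    have hzp : (z : ℝ) ≤ p := by exact_mod_cast (hPz p hp).le
    have h2 : (prs A p) = ((A ×ˢ A).filter (fun x => x.1 < x.2)).filter (fun x => p ∣ x.2 - x.1) := by
      ext x
      simp only [prs, mem_filter, mem_product]
      constructor
      · rintro ⟨h, h1, h2⟩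
        exact ⟨⟨h, h1⟩, (Nat.modEq_iff_dvd' h1.le).1 h2⟩
      · rintro ⟨⟨h, h1⟩, h2⟩
        exact ⟨h, h1, (Nat.modEq_iff_dvd' h1.le).2 h2⟩
    rw [h2, ← Finset.sum_filter, Finset.sum_const, nsmul_eq_mul, mul_one_div]
    gcongr
  calc ∑ p ∈ P, ((prs A p).card : ℝ) / p
      ≤ ∑ p ∈ P, ∑ x ∈ (A ×ˢ A).filter (fun x => x.1 < x.2), (if p ∣ x.2 - x.1 then (1 : ℝ) / z else 0) :=
        Finset.sum_le_sum h1
    _ = ∑ x ∈ (A ×ˢ A).filter (fun x => x.1 < x.2), ∑ p ∈ P, (if p ∣ x.2 - x.1 then (1 : ℝ) / z else 0) :=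
        Finset.sum_comm
    _ ≤ ∑ x ∈ (A ×ˢ A).filter (fun x => x.1 < x.2), Real.log y / z := by
        apply Finset.sum_le_sum
        intro x hx
        obtain ⟨hx1, hx2⟩ := mem_filter.1 hx
        obtain ⟨hx3, hx4⟩ := mem_product.1 hx1
        have h5 := mem_range.1 (hA hx4)
        rw [← Finset.sum_filter, Finset.sum_const, nsmul_eq_mul, mul_one_div]
        gcongr
        exact card_dvd_le hP hz hPz (by omega) (by omega)
    _ = (((A ×ˢ A).filter (fun x => x.1 < x.2)).card : ℝ) * (Real.log y / z) := by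
        rw [Finset.sum_const, nsmul_eq_mul]
    _ ≤ (A.card : ℝ) ^ 2 * (Real.log y / z) := by
        apply mul_le_mul_of_nonneg_right _ (by positivity)
        have h6 : ((A ×ˢ A).filter (fun x => x.1 < x.2)).card ≤ A.card * A.card := by
          rw [← card_product]; exact card_filter_le _ _
        rw [sq]; exact_mod_cast h6
    _ = _ := by ring

lemma prod_one_sub_ge {ι : Type*} (s : Finset ι) (x : ι → ℝ) (h : ∀ i ∈ s, 0 ≤ x i ∧ x i ≤ 1) :
    1 - ∑ i ∈ s, x i ≤ ∏ i ∈ s, (1 - x i) := by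
  classical
  induction s using Finset.induction_on with
  | empty => simp
  | insert a s ha ih =>
    rw [Finset.sum_insert ha, Finset.prod_insert ha]
    have h1 := ih (fun i hi => h i (mem_insert_of_mem hi))
    have h2 := h a (mem_insert_self _ _)
    have h3 : ∏ i ∈ s, (1 - x i) ≤ 1 := Finset.prod_le_one (fun i hi => by linarith [(h i (mem_insert_of_mem hi)).2])
      (fun i hi => by linarith [(h i (mem_insert_of_mem hi)).1])
    nlinarith

lemma sum_inv_sq_le {P : Finset ℕ} {z : ℕ} (hz : 1 ≤ z) (hPz : ∀ p ∈ P, z < p) :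
    ∑ p ∈ P, (1 : ℝ) / (p : ℝ) ^ 2 ≤ 1 / z := by
  have h1 : P ⊆ Ioc z (max z (P.sup id)) := by
    intro p hp
    exact mem_Ioc.2 ⟨hPz p hp, le_max_of_le_right (Finset.le_sup (f := id) hp)⟩
  calc ∑ p ∈ P, (1 : ℝ) / (p : ℝ) ^ 2 ≤ ∑ p ∈ Ioc z (max z (P.sup id)), (1 : ℝ) / (p : ℝ) ^ 2 :=
        Finset.sum_le_sum_of_subset_of_nonneg h1 (fun _ _ _ => by positivity)
    _ = ∑ p ∈ Ioc z (max z (P.sup id)), ((p : ℝ) ^ 2)⁻¹ := by simp only [one_div]
    _ ≤ (z : ℝ)⁻¹ - ((max z (P.sup id) : ℕ) : ℝ)⁻¹ := sum_Ioc_inv_sq_le_sub (by omega) (le_max_left _ _)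
    _ ≤ 1 / z := by
        rw [one_div]
        have : (0 : ℝ) ≤ ((max z (P.sup id) : ℕ) : ℝ)⁻¹ := by positivity
        linarith

/-- finite partial products beyond `z` -/
lemma prod_bounds {P : Finset ℕ} {z y : ℕ} {A : Finset ℕ} (hP : ∀ p ∈ P, p.Prime) (hz : 3 ≤ z) (hy : 2 ≤ y)
    (hPz : ∀ p ∈ P, z < p) (hA : A ⊆ range (y + 1)) (hA1 : 1 ≤ A.card)
    (hbig : 2 * (A.card : ℝ) ^ 2 * (1 + Real.log y) ≤ z) :
    |∏ p ∈ P, loc A p - 1| ≤ 4 * (A.card : ℝ) ^ 2 * (1 + Real.log y) / z := by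
  have hz0 : (0 : ℝ) < z := by exact_mod_cast (by omega : 0 < z)
  have hlog : (0 : ℝ) ≤ Real.log y := Real.log_nonneg (by exact_mod_cast (by omega : 1 ≤ y))
  have hk1 : (1 : ℝ) ≤ A.card := by exact_mod_cast hA1
  have hk2 : 2 * (A.card : ℝ) ^ 2 ≤ z := by nlinarith [sq_nonneg (A.card : ℝ)]
  have hk3 : 2 * A.card ^ 2 ≤ z := by exact_mod_cast hk2
  have hk4 : 2 * A.card ≤ z := by nlinarith
  have hlow : 1 - (A.card : ℝ) ^ 2 / z ≤ ∏ p ∈ P, loc A p := by
    calc 1 - (A.card : ℝ) ^ 2 / z ≤ 1 - ∑ p ∈ P, (A.card : ℝ) ^ 2 / (p : ℝ) ^ 2 := by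
          have h1 := sum_inv_sq_le (P := P) (z := z) (by omega) hPz
          have h2 : ∑ p ∈ P, (A.card : ℝ) ^ 2 / (p : ℝ) ^ 2 = (A.card : ℝ) ^ 2 * ∑ p ∈ P, (1 : ℝ) / (p : ℝ) ^ 2 := by
            rw [Finset.mul_sum]; apply Finset.sum_congr rfl; intro p _; ring
          rw [h2]
          have h3 := mul_le_mul_of_nonneg_left h1 (sq_nonneg (A.card : ℝ))
          have h4 : (A.card : ℝ) ^ 2 * (1 / z) = (A.card : ℝ) ^ 2 / z := by ring
          linarith
      _ ≤ ∏ p ∈ P, (1 - (A.card : ℝ) ^ 2 / (p : ℝ) ^ 2) := by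
          apply prod_one_sub_ge
          intro p hp
          have hp1 : A.card ≤ p := by have := hPz p hp; omega
          have hp0 : (0 : ℝ) < p := by exact_mod_cast (by have := hPz p hp; omega : 0 < p)
          refine ⟨by positivity, ?_⟩
          rw [div_le_one (by positivity)]
          exact pow_le_pow_left₀ (by positivity) (by exact_mod_cast hp1) _
      _ ≤ ∏ p ∈ P, loc A p := by
          apply Finset.prod_le_prod
          · intro p hp
            have hp1 : A.card ≤ p := by have := hPz p hp; omega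
            have hp0 : (0 : ℝ) < p := by exact_mod_cast (by have := hPz p hp; omega : 0 < p)
            have : (A.card : ℝ) ^ 2 / (p : ℝ) ^ 2 ≤ 1 := by
              rw [div_le_one (by positivity)]
              exact pow_le_pow_left₀ (by positivity) (by exact_mod_cast hp1) _
            linarith
          · intro p hp
            exact loc_lower A (hP p hp).two_le (by have := hPz p hp; omega)
  have hup : ∏ p ∈ P, loc A p ≤ Real.exp (2 * ((A.card : ℝ) ^ 2 * Real.log y / z)) := by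
    calc ∏ p ∈ P, loc A p ≤ ∏ p ∈ P, Real.exp (2 * (((prs A p).card : ℝ) / p)) := by
          apply Finset.prod_le_prod
          · intro p hp; exact loc_nonneg A (hP p hp).two_le
          · intro p hp
            refine (loc_upper A (hP p hp).two_le (by have := hPz p hp; omega)).trans ?_
            have := Real.add_one_le_exp (2 * (((prs A p).card : ℝ) / p))
            calc _ = 2 * (((prs A p).card : ℝ) / p) + 1 := by ring
              _ ≤ _ := this
      _ = Real.exp (∑ p ∈ P, 2 * (((prs A p).card : ℝ) / p)) := (Real.exp_sum _ _).symm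
      _ ≤ _ := by
          rw [← Finset.mul_sum]
          apply Real.exp_le_exp.2
          have := sum_prs_le hP hz hPz hA
          linarith
  set x : ℝ := (A.card : ℝ) ^ 2 / z with hx
  have hx0 : 0 ≤ x := by positivity
  have hxl : 2 * (x * Real.log y) ≤ 1 := by
    rw [hx]
    have : 2 * ((A.card : ℝ) ^ 2 / z * Real.log y) = 2 * (A.card : ℝ) ^ 2 * Real.log y / z := by ring
    rw [this, div_le_one hz0]
    nlinarith [sq_nonneg (A.card : ℝ)]
  have hxl0 : 0 ≤ 2 * (x * Real.log y) := by positivity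
  have he : Real.exp (2 * (x * Real.log y)) ≤ 1 + 2 * (2 * (x * Real.log y)) := by
    have h := Real.abs_exp_sub_one_sub_id_le (x := 2 * (x * Real.log y)) (by rw [abs_of_nonneg hxl0]; exact hxl)
    have h' := (abs_le.1 h).2
    nlinarith
  have e1 : 2 * ((A.card : ℝ) ^ 2 * Real.log y / z) = 2 * (x * Real.log y) := by rw [hx]; ring
  have e2 : 4 * (A.card : ℝ) ^ 2 * (1 + Real.log y) / z = 4 * x + 4 * (x * Real.log y) := by rw [hx]; ring
  rw [e1] at hup
  rw [e2, abs_le]
  constructor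
  · have : 0 ≤ x * Real.log y := by positivity
    linarith
  · linarith

/-- the singular series converges -/
lemma multipliable_loc (A : Finset ℕ) : Multipliable (fun p : Nat.Primes => loc A p) := by
  obtain ⟨y, hy⟩ : ∃ y : ℕ, A ⊆ range (y + 1) := ⟨A.sup id, fun a ha =>
    mem_range.2 (Nat.lt_succ_of_le (Finset.le_sup (f := id) ha))⟩
  have hs : Summable (fun p : Nat.Primes => ‖loc A p - 1‖) := by
    have h1 : Summable (fun p : Nat.Primes => (A.card : ℝ) ^ 2 * (1 / ((p : ℕ) : ℝ) ^ 2)) := by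
      apply Summable.mul_left
      exact (Real.summable_one_div_nat_pow.2 (by norm_num : 1 < 2)).comp_injective
        (Nat.Primes.coe_nat_injective)
    have hfin : {p : Nat.Primes | ¬ (y + 2 * A.card + 2 ≤ (p : ℕ))}.Finite := by
      apply Set.Finite.preimage (f := fun p : Nat.Primes => (p : ℕ)) (s := {n | ¬ (y + 2 * A.card + 2 ≤ n)})
      · exact Nat.Primes.coe_nat_injective.injOn
      · apply (Set.finite_lt_nat (y + 2 * A.card + 2)).subset
        intro n hn
        simp only [Set.mem_ofPred_eq, not_le] at hn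
        exact hn
    refine Summable.of_norm_bounded_eventually h1 ?_
    rw [Filter.eventually_cofinite]
    apply hfin.subset
    intro p hp
    simp only [Set.mem_ofPred_eq] at hp ⊢
    intro hpy
    apply hp
    have hp0 : (0 : ℝ) < ((p : ℕ) : ℝ) := by exact_mod_cast p.2.pos
    have hprs : prs A p = ∅ := by
      rw [Finset.eq_empty_iff_forall_notMem]
      intro x hx
      obtain ⟨hx1, hx2, hx3⟩ := mem_filter.1 hx
      obtain ⟨hx4, hx5⟩ := mem_product.1 hx1
      have h6 := mem_range.1 (hy hx4)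
      have h7 := mem_range.1 (hy hx5)
      rw [Nat.mod_eq_of_lt (by omega), Nat.mod_eq_of_lt (by omega)] at hx3
      omega
    have hu := loc_upper A p.2.two_le (by omega : 2 * A.card ≤ (p : ℕ))
    have hl := loc_lower A p.2.two_le (by omega : A.card ≤ (p : ℕ))
    rw [hprs] at hu
    simp only [card_empty, Nat.cast_zero, mul_zero, zero_div, add_zero] at hu
    rw [norm_norm, Real.norm_eq_abs, abs_le]
    constructor
    · have : (A.card : ℝ) ^ 2 * (1 / ((p : ℕ) : ℝ) ^ 2) = (A.card : ℝ) ^ 2 / ((p : ℕ) : ℝ) ^ 2 := by ring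
      linarith
    · have : 0 ≤ (A.card : ℝ) ^ 2 * (1 / ((p : ℕ) : ℝ) ^ 2) := by positivity
      linarith
  have := multipliable_one_add_of_summable hs
  simpa using this

theorem t_TAIL : S_TAIL := by
  intro y z A hy hz hA hA1 hbig
  classical
  have hmul := (multipliable_loc A).hasProd
  have hsZ0 : 0 ≤ singZ z A := Finset.prod_nonneg (fun p hp => loc_nonneg A (mem_filter.1 hp).2.two_le)
  -- the primes up to `z`
  let S0 : Finset Nat.Primes := ((Icc 1 z).filter Nat.Prime).preimage (fun p : Nat.Primes => (p : ℕ))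
    Nat.Primes.coe_nat_injective.injOn
  have key : ∀ s : Finset Nat.Primes, S0 ⊆ s →
      |∏ p ∈ s, loc A p - singZ z A| ≤ 4 * (A.card : ℝ) ^ 2 * (1 + Real.log y) / z * singZ z A := by
    intro s hs
    have h1 : ∏ p ∈ s, loc A p = (∏ p ∈ s \ S0, loc A p) * ∏ p ∈ S0, loc A p :=
      (Finset.prod_sdiff hs).symm
    have h2 : ∏ p ∈ S0, loc A p = singZ z A := by
      unfold singZ
      apply Finset.prod_preimage (fun p : Nat.Primes => (p : ℕ)) _ _ (fun p => loc A p)
      intro p hp hp2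
      exact absurd ⟨⟨p, (mem_filter.1 hp).2⟩, rfl⟩ hp2
    have h3 : ∏ p ∈ s \ S0, loc A p = ∏ p ∈ (s \ S0).map ⟨fun p : Nat.Primes => (p : ℕ), Nat.Primes.coe_nat_injective⟩, loc A p := by
      rw [Finset.prod_map]; rfl
    have h4 : |∏ p ∈ s \ S0, loc A p - 1| ≤ 4 * (A.card : ℝ) ^ 2 * (1 + Real.log y) / z := by
      rw [h3]
      apply prod_bounds (y := y) _ hz hy _ hA hA1 hbig
      · intro p hp
        obtain ⟨q, _, rfl⟩ := mem_map.1 hp
        exact q.2
      · intro p hp
        obtain ⟨q, hq, rfl⟩ := mem_map.1 hp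
        have h5 := (mem_sdiff.1 hq).2
        by_contra hcon
        apply h5
        simp only [S0, mem_preimage, mem_filter, mem_Icc]
        simp only [Function.Embedding.coeFn_mk, not_lt] at hcon
        exact ⟨⟨q.2.one_lt.le, hcon⟩, q.2⟩
    rw [h1, h2]
    have h6 : (∏ p ∈ s \ S0, loc A p) * singZ z A - singZ z A = (∏ p ∈ s \ S0, loc A p - 1) * singZ z A := by ring
    rw [h6, abs_mul, abs_of_nonneg hsZ0]
    exact mul_le_mul_of_nonneg_right h4 hsZ0
  have htend : Filter.Tendsto (fun s : Finset Nat.Primes => |∏ p ∈ s, loc A p - singZ z A|) Filter.atTop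
      (nhds |sing A - singZ z A|) := by
    have h1 : Filter.Tendsto (fun s : Finset Nat.Primes => ∏ p ∈ s, loc A p) Filter.atTop (nhds (sing A)) := hmul
    exact (h1.sub_const _).abs
  exact le_of_tendsto htend (Filter.eventually_atTop.2 ⟨S0, key⟩)

end Pool.Agent.J4H57.HL
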