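import Pool.Agent.J4H81.HL.Stm4

/-!
# Hardy-Littlewood for almost all admissible sets, part I (project HL of helper81): the good classes of a window

After `J4H81/HL/WN.lean` (helper81), with an upper bound for the number of the primes in the window. (helper57)
-/

set_option autoImplicit false

namespace Pool.Agent.J4H57.HL

open Finset MeasureTheory Filter
open Pool.Agent.J4H81.PT Pool.Agent.J4H81.PT.HW
open Pool.Agent.J4H81.PT.ZF (NoZ)

/-- the weight is one in the middle of the window -/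
theorem om_one_win {W T v N₁ : ℕ} (hW : 0 < W) {η : ℝ} (hη : 0 < η) (hη1 : η ≤ 1) (hN₁ : 1 ≤ N₁)
    (hv : (v : ℝ) ≤ 2 / 3 * T)
    (hN₁u : (N₁ : ℝ) ≤ W * v + η * (W * T : ℕ) / 64) (hηT : 26 ≤ η * T) (r : ℕ) (hr : r < W) :
    ∀ s ∈ Ico ⌈v + η * T * (7 / 64)⌉₊ ⌊T * (1 - η / 16)⌋₊,
      Real.log (W * T : ℕ) - Real.log (64 / (7 * η)) ≤ Real.log (r + W * s : ℕ) ∧
      om (η / 16) (W * T : ℕ) N₁ (r + W * s) = 1 := by
  have hT0 : (0 : ℝ) < T := by
    by_contra h
    have : (T : ℝ) ≤ 0 := not_lt.1 h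
    nlinarith
  have hTn : 0 < T := by exact_mod_cast hT0
  have hW0 : (0 : ℝ) < W := by exact_mod_cast hW
  have hN0 : (0 : ℝ) < (W * T : ℕ) := by push_cast; positivity
  have hN₁0 : (0 : ℝ) < N₁ := by exact_mod_cast hN₁
  have hκ0 : 0 < η / 16 := by positivity
  have hlogs := win_logs hW hTn hη hη1 hN₁ hv hN₁u
  have hv0 : (0 : ℝ) ≤ v := Nat.cast_nonneg _
  set a : ℕ := ⌈v + η * T * (7 / 64)⌉₊ with ha
  set b : ℕ := ⌊T * (1 - η / 16)⌋₊ with hb
  have ha1 : v + η * T * (7 / 64) ≤ a := Nat.le_ceil _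
  have hb0 : 0 ≤ T * (1 - η / 16) := mul_nonneg hT0.le (by linarith)
  have hb1 : (b : ℝ) ≤ T * (1 - η / 16) := Nat.floor_le hb0
  intro s hs
  rw [mem_Ico] at hs
  have hs1 : (a : ℝ) ≤ s := by exact_mod_cast hs.1
  have hs2 : (s : ℝ) + 1 ≤ b := by exact_mod_cast hs.2
  have hs0 : 0 < v + η * T * (7 / 64) := by positivity
  have hr1 : (r : ℝ) + 1 ≤ W := by exact_mod_cast hr
  have hr0 : (0 : ℝ) ≤ r := Nat.cast_nonneg _
  have hlow : (W : ℝ) * (v + η * T * (7 / 64)) ≤ ((r + W * s : ℕ) : ℝ) := by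
    push_cast
    have : (W : ℝ) * (v + η * T * (7 / 64)) ≤ W * s := mul_le_mul_of_nonneg_left (ha1.trans hs1) hW0.le
    linarith
  have hn0 : (0 : ℝ) < ((r + W * s : ℕ) : ℝ) := lt_of_lt_of_le (by positivity) hlow
  have hup : ((r + W * s : ℕ) : ℝ) ≤ (W * T : ℕ) * (1 - η / 16) := by
    push_cast
    have h1 : (W : ℝ) * (s + 1) ≤ W * (T * (1 - η / 16)) := mul_le_mul_of_nonneg_left (hs2.trans hb1) hW0.le
    nlinarith only [h1, hr1]
  refine ⟨?_, ?_⟩
  · have h1 : ((W * T : ℕ) : ℝ) / (64 / (7 * η)) ≤ ((r + W * s : ℕ) : ℝ) := by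
      refine le_trans ?_ hlow
      push_cast
      have h2 : (W : ℝ) * T / (64 / (7 * η)) = W * (0 + η * T * (7 / 64)) := by
        field_simp
        ring
      rw [h2]
      exact mul_le_mul_of_nonneg_left (by linarith) hW0.le
    have h3 := Real.log_le_log (by positivity) h1
    rwa [Real.log_div hN0.ne' (by positivity)] at h3
  apply om_one hκ0
  · have h1 : (N₁ : ℝ) * Real.exp (η / 16) ≤ ((r + W * s : ℕ) : ℝ) := by
      have h2 : Real.exp (η / 16) ≤ 1 + η / 8 := by
        have h3 : |η / 16| ≤ 1 := by rw [abs_of_pos hκ0]; linarith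
        have h4 := Real.abs_exp_sub_one_le h3
        rw [abs_of_pos hκ0] at h4
        have := (abs_le.1 h4).2
        linarith
      have h3 : (N₁ : ℝ) * Real.exp (η / 16) ≤ (W * v + η * (W * T : ℕ) / 64) * (1 + η / 8) :=
        mul_le_mul hN₁u h2 (Real.exp_pos _).le (by positivity)
      refine h3.trans (le_trans ?_ hlow)
      push_cast
      have h4 : (W * v + η * (W * T) / 64) * (1 + η / 8) = W * (v + η * T / 64 + η * v / 8 + η * (η * T) / 512) := by ring
      rw [h4]
      apply mul_le_mul_of_nonneg_left _ hW0.le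
      have h5 : η * v ≤ η * (2 / 3 * T) := mul_le_mul_of_nonneg_left hv hη.le
      have h6 : η * (η * T) ≤ 1 * (η * T) := mul_le_mul_of_nonneg_right hη1 (by positivity)
      linarith
    have h2 := Real.log_le_log (by positivity) h1
    rwa [Real.log_mul hN₁0.ne' (Real.exp_pos _).ne', Real.log_exp] at h2
  · have h1 : ((r + W * s : ℕ) : ℝ) ≤ (W * T : ℕ) * Real.exp (-(η / 16)) := by
      refine hup.trans (mul_le_mul_of_nonneg_left ?_ hN0.le)
      have := Real.add_one_le_exp (-(η / 16))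
      linarith
    have h2 := Real.log_le_log hn0 h1
    rw [Real.log_mul hN0.ne' (Real.exp_pos _).ne', Real.log_exp] at h2
    linarith

/-- an edge of the window -/
theorem edge {Cb : ℝ} (hCb : 1 ≤ Cb)
    (hbt : ∀ W a T : ℕ, 1 ≤ W → a.Coprime W → 2 ≤ T →
      (((range T).filter (fun t => (a + W * t).Prime)).card : ℝ) ≤ Cb * ((W : ℝ) / Nat.totient W) * (T / Real.log T))
    {W r u u' : ℕ} {L E : ℝ} (hW : 1 ≤ W) (hr : r.Coprime W) (huu : u + 2 ≤ u') (hE : ((u' - u : ℕ) : ℝ) ≤ E)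
    (hL0 : 0 < L) (hL : L ≤ 2 * Real.log ((u' - u : ℕ) : ℝ)) :
    (((Ico u u').filter (fun s => (r + W * s).Prime)).card : ℝ) ≤ Cb * ((W : ℝ) / Nat.totient W) * (2 * E / L) := by
  have h1 : ((Ico u u').filter (fun s => (r + W * s).Prime)).card =
      ((range (u' - u)).filter (fun t => ((r + W * u) + W * t).Prime)).card := by
    symm
    apply card_bij (fun t _ => u + t)
    · intro t ht
      rw [mem_filter, mem_range] at ht
      rw [mem_filter, mem_Ico]
      refine ⟨⟨by omega, by omega⟩, ?_⟩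
      have : r + W * (u + t) = (r + W * u) + W * t := by ring
      rw [this]
      exact ht.2
    · intro t _ t' _ h
      omega
    · intro s hs
      rw [mem_filter, mem_Ico] at hs
      refine ⟨s - u, ?_, by omega⟩
      rw [mem_filter, mem_range]
      refine ⟨by omega, ?_⟩
      have h2 : s = u + (s - u) := by omega
      have : (r + W * u) + W * (s - u) = r + W * s := by
        conv_rhs => rw [h2]
        ring
      rw [this]
      exact hs.2
  rw [h1]
  have h2 : (r + W * u).Coprime W := by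
    rw [Nat.coprime_add_mul_left_left]
    exact hr
  refine (hbt W (r + W * u) (u' - u) hW h2 (by omega)).trans ?_
  apply mul_le_mul_of_nonneg_left _ (by positivity)
  have h3 : 0 < Real.log ((u' - u : ℕ) : ℝ) := by linarith
  have hE0 : 0 ≤ E := le_trans (Nat.cast_nonneg _) hE
  rw [div_le_div_iff₀ h3 hL0]
  calc ((u' - u : ℕ) : ℝ) * L ≤ E * (2 * Real.log ((u' - u : ℕ) : ℝ)) := mul_le_mul hE hL hL0.le hE0
    _ = _ := by ring

/-- the good classes of the window `[W v, W (v + T))` at a good scale -/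
theorem t_WIN : Pool.Agent.J4H81.HL.S_WIN := by
  intro c₀ hc₀ hc₀1
  obtain ⟨Cb, hCb, hbt⟩ := t_BT
  obtain ⟨c, C₁, l₁, K, hc, hc1, hC₁, hl₁, hen⟩ := energy_win hc₀ hc₀1
  obtain ⟨l₂, hl₂⟩ := eventually_atTop.1 (((poly_exp (show (0 : ℝ) < 1 / 1000 by norm_num) 14 (10 ^ 9))).and
    (((poly_exp (show (0 : ℝ) < 1 by norm_num) 6 (10 ^ 6))).and
      ((poly_exp (show (0 : ℝ) < 1 / 2000 by norm_num) (K + 5) 2304))))
  refine ⟨c, 540000 * C₁ + (2 + 2 * Cb), max (max l₁ l₂) 10000, 2 * K + 6, hc, hc1, by linarith, le_max_right _ _, ?_⟩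
  intro l hl hno T₀ v w W _ η₀ hw hW hη₀ hη₀2 hη₀l hlogη hT₀l hvT₀ hlogl
  have hl2000 : 10000 ≤ l := (le_max_right _ _).trans hl
  have hll₁ : l₁ ≤ l := (le_max_left _ _).trans ((le_max_left _ _).trans hl)
  have hll₂ : l₂ ≤ l := (le_max_right _ _).trans ((le_max_left _ _).trans hl)
  obtain ⟨hF1, hF2, hF3⟩ := hl₂ l hll₂
  rw [one_mul] at hF2
  have hl0 : 0 < l := by linarith
  have hl1 : 1 ≤ l := by linarith
  -- the total length
  set T : ℕ := v + T₀ with hT
  set η : ℝ := η₀ / 3 with hη'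
  have hη : 0 < η := by positivity
  have hη2 : η ≤ 1 / 6 := by linarith
  have hηl : 8 / η + 2 ≤ l / 1000 := by
    have : 8 / η = 24 / η₀ := by rw [hη']; field_simp; norm_num
    rw [this]; exact hη₀l
  have hη8 : 8000 / l ≤ η := by
    rw [div_le_iff₀ hl0]
    have h1 : 8 / η ≤ l / 1000 := by linarith
    rw [div_le_iff₀ hη] at h1
    linarith
  have hη1 : 1 / l ≤ η := le_trans (by gcongr; norm_num) hη8
  have hηl8 : 8000 ≤ η * l := by rwa [div_le_iff₀ hl0] at hη8
  have hT₀0 : (0 : ℝ) < T₀ := lt_of_lt_of_le (Real.exp_pos _) hT₀l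
  have hTr : (T : ℝ) = v + T₀ := by rw [hT]; push_cast; ring
  have hv0 : (0 : ℝ) ≤ v := Nat.cast_nonneg _
  have hvr : (v : ℝ) ≤ 2 * T₀ := by exact_mod_cast hvT₀
  have hv23 : (v : ℝ) ≤ 2 / 3 * T := by linarith
  have hTT₀ : (T₀ : ℝ) ≤ T := by linarith
  have hT3 : (T : ℝ) ≤ 3 * T₀ := by linarith
  -- the parameters
  have hw1 : (w : ℝ) ≤ l / 1000 := by rw [hw]; exact Nat.floor_le (by positivity)
  have hw2 : l / 1000 < w + 1 := by rw [hw]; exact Nat.lt_floor_add_one _
  have hwpos : (0 : ℝ) < w := by linarith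
  have hWs : Squarefree W := by rw [hW]; exact squarefree_primorial w
  have hWpos : 0 < W := by rw [hW]; exact primorial_pos w
  have hW0 : (0 : ℝ) < W := by exact_mod_cast hWpos
  have hW1 : (1 : ℝ) ≤ W := by exact_mod_cast hWpos
  have hWl : (W : ℝ) ≤ Real.exp (l / 700) := by
    have h1 : (W : ℝ) ≤ (4 : ℝ) ^ w := by rw [hW]; exact_mod_cast primorial_le_four_pow w
    have h2 : (4 : ℝ) ^ w = Real.exp (w * (2 * Real.log 2)) := by
      rw [Real.exp_nat_mul, show 2 * Real.log 2 = Real.log (2 ^ 2) by rw [Real.log_pow]; norm_num, Real.exp_log (by norm_num)]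
      norm_num
    rw [h2] at h1
    refine h1.trans (Real.exp_le_exp.2 ?_)
    have h3 := Real.log_two_lt_d9
    have h4 : (w : ℝ) * (2 * Real.log 2) ≤ (l / 1000) * (2 * 0.6931471808) := by gcongr
    linarith
  set P : ℕ := ⌊Real.exp (l / 50)⌋₊ with hP
  have hPexp : (2 : ℝ) ≤ Real.exp (l / 50) := by
    have := Real.add_one_le_exp (l / 50)
    linarith
  have hP2 : (P : ℝ) ≤ Real.exp (l / 50) := Nat.floor_le (Real.exp_pos _).le
  have hP1 : Real.exp (l / 50) / 2 ≤ P := by
    have : Real.exp (l / 50) < P + 1 := Nat.lt_floor_add_one _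
    linarith
  have hPpos : 1 ≤ P := by
    have : (0 : ℝ) < P := by linarith
    exact_mod_cast this
  set Q : ℕ := W * P with hQ
  have hQ1 : 1 ≤ Q := Nat.mul_pos hWpos hPpos
  have hQl : (Q : ℝ) ≤ Real.exp (l / 40) := by
    rw [hQ]; push_cast
    calc (W : ℝ) * P ≤ Real.exp (l / 700) * Real.exp (l / 50) := by gcongr
      _ = Real.exp (l / 700 + l / 50) := (Real.exp_add _ _).symm
      _ ≤ Real.exp (l / 40) := Real.exp_le_exp.2 (by linarith)
  have hTl : Real.exp (99 * l) ≤ T := (Real.exp_le_exp.2 (by linarith)).trans (hT₀l.trans hTT₀)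
  have hT0 : (0 : ℝ) < T := lt_of_lt_of_le (Real.exp_pos _) hTl
  have hTpos : 0 < T := by exact_mod_cast hT0
  set N : ℕ := W * T with hN
  have hNWT : (N : ℝ) = W * T := by rw [hN]; push_cast; ring
  have hNl : Real.exp (100 * l) ≤ N := by
    rw [hNWT]
    calc Real.exp (100 * l) ≤ 1 * T₀ := by linarith
      _ ≤ W * T := mul_le_mul hW1 hTT₀ hT₀0.le hW0.le
  have hN0 : (0 : ℝ) < N := lt_of_lt_of_le (Real.exp_pos _) hNl
  have hNpos : 0 < N := by exact_mod_cast hN0
  have hlogN2 : Real.log N ≤ l ^ 2 := by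
    refine le_trans (Real.log_le_log hN0 ?_) hlogl
    rw [hNWT]
    push_cast
    have : (W : ℝ) * T ≤ W * (3 * T₀) := mul_le_mul_of_nonneg_left hT3 hW0.le
    linarith
  have hlogN1 : 100 * l ≤ Real.log N := by
    rw [← Real.log_exp (100 * l)]
    exact Real.log_le_log (Real.exp_pos _) hNl
  have hη1' : η ≤ 1 := by linarith
  -- big quantities
  have hTbig : 10 ^ 6 * l ^ 6 * Real.exp (98 * l) ≤ T := by
    calc 10 ^ 6 * l ^ 6 * Real.exp (98 * l) ≤ Real.exp l * Real.exp (98 * l) := mul_le_mul_of_nonneg_right hF2 (Real.exp_pos _).le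
      _ = Real.exp (99 * l) := by rw [← Real.exp_add]; congr 1; ring
      _ ≤ T := hTl
  have hηT : 10 ^ 6 * l ^ 5 * Real.exp (98 * l) ≤ η * T := by
    have h1 : η * (10 ^ 6 * l ^ 6 * Real.exp (98 * l)) ≤ η * T := mul_le_mul_of_nonneg_left hTbig hη.le
    have h2 : η * (10 ^ 6 * l ^ 6 * Real.exp (98 * l)) = (η * l) * (10 ^ 6 * l ^ 5 * Real.exp (98 * l)) := by ring
    rw [h2] at h1
    have h3 : 0 ≤ 10 ^ 6 * l ^ 5 * Real.exp (98 * l) := by positivity
    have h4 : 10 ^ 6 * l ^ 5 * Real.exp (98 * l) ≤ (η * l) * (10 ^ 6 * l ^ 5 * Real.exp (98 * l)) := le_mul_of_one_le_left h3 (by linarith)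
    linarith
  have he98 : 1 ≤ Real.exp (98 * l) := Real.one_le_exp (by positivity)
  have hl5 : 1 ≤ l ^ 5 := one_le_pow₀ hl1
  have hηT6 : 10 ^ 6 ≤ η * T := by
    refine le_trans ?_ hηT
    have : 1 ≤ l ^ 5 * Real.exp (98 * l) := one_le_mul_of_one_le_of_one_le hl5 he98
    linarith
  have hTN : (T : ℝ) ≤ N := by rw [hNWT]; exact le_mul_of_one_le_left hT0.le hW1
  have hηN : 10 ^ 6 ≤ η * N := hηT6.trans (mul_le_mul_of_nonneg_left hTN hη.le)
  set N₁ : ℕ := W * v + ⌊η * N / 64⌋₊ with hN₁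
  have hN₁1 : (N₁ : ℝ) ≤ W * v + η * N / 64 := by
    rw [hN₁]; push_cast
    have := Nat.floor_le (show 0 ≤ η * N / 64 by positivity)
    linarith
  have hN₁3 : η * N / 128 ≤ N₁ := by
    have h1 : η * N / 64 < ⌊η * N / 64⌋₊ + 1 := Nat.lt_floor_add_one _
    rw [hN₁]; push_cast
    have : (0 : ℝ) ≤ W * v := by positivity
    linarith
  have hN₁pos : 1 ≤ N₁ := by
    have : (0 : ℝ) < N₁ := by linarith
    exact_mod_cast this
  have hlogs : Real.log N₁ + η / 16 ≤ Real.log N := win_logs hWpos hTpos hη hη1' hN₁pos hv23 (by rw [← hN]; exact hN₁1)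
  have hω := om_wt (show 0 < η / 16 by positivity) hlogs
  have hmass := om_mass_win (T := T) (v := v) hWpos hη hη1' hN₁pos hv23 (by rw [hN₁]; exact Nat.le_add_right _ _)
    (by rw [← hN]; exact hN₁1) (by linarith)
  rw [← hN] at hmass
  obtain ⟨hS, hEt⟩ := hen l hll₁ hno W T P N₁ η hWs hTpos hWl hP1 hP2 hη1 hη1' (by rw [← hN]; exact hN₁3)
    (by rw [← hN]; exact hlogs) (by rw [← hN]; exact hNl) (by rw [← hN]; exact hlogN2)
  rw [← hQ] at hS hEt
  rw [← hN] at hEt
  -- P
  have hexpP3 : ((P * P * P : ℕ) : ℝ) ≤ Real.exp l := by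
    push_cast
    calc (P : ℝ) * P * P ≤ Real.exp (l / 50) * Real.exp (l / 50) * Real.exp (l / 50) := by gcongr
      _ = Real.exp (l / 50 + l / 50 + l / 50) := by rw [Real.exp_add, Real.exp_add]
      _ ≤ Real.exp l := Real.exp_le_exp.2 (by linarith)
  have hP3 : P * P * P ≤ N := by
    have : ((P * P * P : ℕ) : ℝ) ≤ N := hexpP3.trans ((Real.exp_le_exp.2 (by linarith)).trans hNl)
    exact_mod_cast this
  have hPP : P * P ≤ N₁ := by
    have h1 : ((P * P : ℕ) : ℝ) ≤ ((P * P * P : ℕ) : ℝ) := by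
      exact_mod_cast Nat.le_mul_of_pos_right _ hPpos
    have h2 : Real.exp l * 128 ≤ η * N := by
      calc Real.exp l * 128 ≤ 10 ^ 6 * l ^ 5 * Real.exp (98 * l) := by
            have h3 : Real.exp l ≤ Real.exp (98 * l) := Real.exp_le_exp.2 (by linarith)
            have h4 : (128 : ℝ) ≤ 10 ^ 6 * l ^ 5 := by linarith
            calc Real.exp l * 128 ≤ Real.exp (98 * l) * (10 ^ 6 * l ^ 5) := by gcongr
              _ = _ := by ring
        _ ≤ η * T := hηT
        _ ≤ η * N := mul_le_mul_of_nonneg_left hTN hη.le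
    have h3 : ((P * P : ℕ) : ℝ) ≤ N₁ := by linarith
    exact_mod_cast h3
  set m₀ : ℝ := T * Real.exp (-(l / 150)) with hm₀
  have hm0 := m0_bound (by linarith) hF1 hWpos hTpos hWl hP1 hP2 (by rw [← hN]; exact hNl) (by rw [← hN]; exact hlogN2) hTl
  rw [← hN, ← hQ, ← hm₀] at hm0
  have hlK : 1 ≤ l ^ K := one_le_pow₀ hl1
  have hΛ : ∑ q ∈ Icc 1 Q, 1 / (Nat.totient q : ℝ) + 1 + 2 * Real.log N ≤ l ^ (K + 3) := by
    have h1 : l ^ (K + 3) = l ^ K * l ^ 3 := pow_add _ _ _
    have h2 : l ^ K + 1 + 2 * l ^ 2 ≤ l ^ K * l ^ 3 := by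
      have h3 : 4 * l ^ 2 ≤ l ^ 3 := by
        have : l ^ 3 = l * l ^ 2 := by ring
        rw [this]
        exact mul_le_mul_of_nonneg_right (by linarith) (sq_nonneg l)
      have h4 : 1 ≤ l ^ 2 := one_le_pow₀ hl1
      have h5 : l ^ K * (4 * l ^ 2) ≤ l ^ K * l ^ 3 := mul_le_mul_of_nonneg_left h3 (by linarith)
      have h6 : l ^ K ≤ l ^ K * l ^ 2 := le_mul_of_one_le_right (by linarith) h4
      have h7 : l ^ 2 ≤ l ^ K * l ^ 2 := le_mul_of_one_le_left (by linarith) hlK
      linarith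
    rw [h1]
    linarith
  have hQT : 100 * (Q : ℝ) ^ 4 ≤ η * T := by
    have h1 : (Q : ℝ) ^ 4 ≤ Real.exp (98 * l) := by
      calc (Q : ℝ) ^ 4 ≤ Real.exp (l / 40) ^ 4 := pow_le_pow_left₀ (Nat.cast_nonneg _) hQl 4
        _ = Real.exp (l / 10) := by rw [← Real.exp_nat_mul]; congr 1; push_cast; ring
        _ ≤ Real.exp (98 * l) := Real.exp_le_exp.2 (by linarith)
    refine le_trans ?_ hηT
    have h2 : (100 : ℝ) ≤ 10 ^ 6 * l ^ 5 := by linarith
    calc 100 * (Q : ℝ) ^ 4 ≤ (10 ^ 6 * l ^ 5) * Real.exp (98 * l) := by gcongr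
      _ = _ := by ring
  have hMT : (T : ℝ) - v ≤ T := by linarith
  obtain ⟨B, Ex, hBu, hBc, hgood⟩ := classes_win (W := W) (T := T) (Q := Q) (N₁ := N₁) (P := P) (w := w) (U := T₀)
    (Et := C₁ * l ^ K * (N * (Real.exp (-(c * Real.log N / (2 * l))) + Real.exp (-(l / 10))))) (M := (T : ℝ) - v)
    (m₀ := m₀) (Λ₂ := l ^ (K + 3)) (η := η) (ω := om (η / 16) (W * T : ℕ) N₁)
    hWs (fun p hp hpw => by rw [hW]; exact hp.dvd_primorial_iff.2 hpw) hTpos
    (by
      have : (2 : ℝ) ≤ w := by linarith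
      exact_mod_cast this)
    hQ1 hPpos (by rw [← hN]; exact hP3) hPP (by rw [← hN]; exact hω) hη (by linarith) hMT (by rw [← hN]; exact hm0)
    (by rw [← hN]; exact hΛ) (fun r hr => (hmass r hr).1) (fun r hr => by have := (hmass r hr).2; linarith)
    hQT (by linarith) (by rw [← hN]; exact hEt)
  rw [← hN] at hBc
  set ω : ℕ → ℝ := om (η / 16) (N : ℕ) N₁ with hωdef
  -- the functions
  have hFlow : ∀ b : ZMod W, ∀ s, s < v → FF W ω b.val s = 0 := by
    intro b s hs
    have h1 : W * (s + 1) ≤ W * v := Nat.mul_le_mul_left W hs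
    have h2 : W * (s + 1) = W * s + W := by ring
    have h3 := ZMod.val_lt b
    have : ω (b.val + W * s) = 0 := hω.zero_le _ (by omega)
    unfold FF
    rw [this]; simp
  have hFhigh : ∀ b : ZMod W, ∀ s, T ≤ s → FF W ω b.val s = 0 := by
    intro b s hs
    have h1 : W * T ≤ W * s := Nat.mul_le_mul_left W hs
    have : ω (b.val + W * s) = 0 := hω.zero_ge _ (by omega)
    unfold FF
    rw [this]; simp
  have hshift : ∀ f : ℕ → ℝ, (∀ s, s < v → f s = 0) → ∑ s ∈ range T, f s = ∑ s ∈ range T₀, f (v + s) := by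
    intro f hf
    rw [hT, sum_range_add, sum_eq_zero (fun s hs => hf s (mem_range.1 hs)), zero_add]
  have hηT₀ : η * T ≤ η₀ * T₀ := by
    have : η * T ≤ η * (3 * T₀) := mul_le_mul_of_nonneg_left hT3 hη.le
    have h2 : η * (3 * (T₀ : ℝ)) = η₀ * T₀ := by rw [hη']; ring
    linarith
  have hTv : (T : ℝ) - v = T₀ := by linarith
  refine ⟨fun b s => FF W ω b.val (v + s), B, Ex, fun b s => FF_nonneg hω _ _, ?_, ?_, ?_, hBu, ?_, ?_, ?_⟩
  · intro b s
    show FF W ω b.val (v + s) ≤ (Nat.totient W : ℝ) / W * Real.log (N : ℕ)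
    unfold FF nu
    apply mul_le_mul_of_nonneg_left _ (by positivity)
    have hlN : 0 ≤ Real.log N := Real.log_natCast_nonneg _
    by_cases hz : ω (b.val + W * (v + s)) = 0
    · rw [hz, mul_zero]; exact hlN
    · have hlt : b.val + W * (v + s) < N := by
        by_contra hcon
        push Not at hcon
        exact hz (hω.zero_ge _ hcon)
      split_ifs with hp
      · calc Real.log (b.val + W * (v + s) : ℕ) * ω (b.val + W * (v + s)) ≤ Real.log (b.val + W * (v + s) : ℕ) * 1 :=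
              mul_le_mul_of_nonneg_left (hω.le_one _) (Real.log_natCast_nonneg _)
          _ ≤ Real.log N := by
              rw [mul_one]
              exact log_nat_mono hlt.le
      · rw [zero_mul]; exact hlN
  · intro b s h
    exact FF_prime h
  · intro b s hs
    exact hFhigh b _ (by omega)
  · -- the bad classes
    have hφ0 : (0 : ℝ) < Nat.totient W := by exact_mod_cast Nat.totient_pos.2 hWpos
    rw [div_le_iff₀ hφ0] at hBc
    refine hBc.trans (mul_le_mul_of_nonneg_right ?_ hφ0.le)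
    have h1 : Real.exp (-(c * Real.log N / (2 * l))) ≤ Real.exp (-(c * Real.log T₀ / (2 * l))) := by
      apply Real.exp_le_exp.2
      have h2 : Real.log T₀ ≤ Real.log N := Real.log_le_log hT₀0 (hTT₀.trans hTN)
      have h3 : c * Real.log T₀ / (2 * l) ≤ c * Real.log N / (2 * l) := by gcongr
      linarith
    have h2 : Real.exp (-(l / 10)) ≤ Real.exp (-(l / 100)) := Real.exp_le_exp.2 (by linarith)
    set s₁ : ℝ := Real.exp (-(c * Real.log N / (2 * l))) + Real.exp (-(l / 10)) with hs₁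
    set s₂ : ℝ := Real.exp (-(c * Real.log T₀ / (2 * l))) + Real.exp (-(l / 100)) with hs₂
    have hs₁0 : 0 < s₁ := by positivity
    have hs12 : s₁ ≤ s₂ := by linarith
    have h4 : 10 ^ 4 * l ^ (K + 3) * (C₁ * l ^ K * (N * s₁)) / (η ^ 3 * N) = 10 ^ 4 * C₁ * (l ^ (2 * K + 3) * (1 / η ^ 3)) * s₁ := by
      field_simp
      ring
    refine (le_of_eq h4).trans ?_
    have h5 : 1 / η ^ 3 ≤ l ^ 3 := by
      rw [div_le_iff₀ (by positivity)]
      have : 1 ≤ (η * l) ^ 3 := one_le_pow₀ (by linarith)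
      calc (1 : ℝ) ≤ (η * l) ^ 3 := this
        _ = l ^ 3 * η ^ 3 := by ring
    have h6 : l ^ (2 * K + 3) * (1 / η ^ 3) ≤ l ^ (2 * K + 6) := by
      calc l ^ (2 * K + 3) * (1 / η ^ 3) ≤ l ^ (2 * K + 3) * l ^ 3 := by gcongr
        _ = l ^ (2 * K + 6) := by rw [← pow_add]
    have hl2K : 0 ≤ l ^ (2 * K + 6) := by positivity
    calc 10 ^ 4 * C₁ * (l ^ (2 * K + 3) * (1 / η ^ 3)) * s₁ ≤ 10 ^ 4 * C₁ * l ^ (2 * K + 6) * s₂ := by gcongr
      _ ≤ (540000 * C₁ + (2 + 2 * Cb)) * l ^ (2 * K + 6) * s₂ := by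
          have h8 : 0 ≤ l ^ (2 * K + 6) * s₂ := by positivity
          have h9 : 0 ≤ C₁ * (l ^ (2 * K + 6) * s₂) := by positivity
          have h10 : 0 ≤ Cb * (l ^ (2 * K + 6) * s₂) := by positivity
          linarith
  · intro b hb hbB
    obtain ⟨g1, g2, g3, g4⟩ := hgood b hb hbB
    rw [hTv, hshift _ (fun s hs => hFlow b s hs)] at g1 g2
    refine ⟨by linarith, by linarith, ?_, ?_⟩
    · refine g3.trans ?_
      have h4 : m₀ ^ 2 = (T : ℝ) ^ 2 * Real.exp (-(l / 75)) := by
        rw [hm₀, mul_pow, ← Real.exp_nat_mul]; congr 2; push_cast; ring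
      rw [h4]
      have h5 : 1 ≤ (η * l) ^ 2 := one_le_pow₀ (by linarith)
      have h6 : 256 * ((T : ℝ) ^ 2 * Real.exp (-(l / 75))) * l ^ (K + 3) / (η ^ 2 * T) ≤ 256 * T * Real.exp (-(l / 75)) * l ^ (K + 5) := by
        rw [div_le_iff₀ (by positivity)]
        have h7 : 256 * (T : ℝ) * Real.exp (-(l / 75)) * l ^ (K + 5) * (η ^ 2 * T) = 256 * ((T : ℝ) ^ 2 * Real.exp (-(l / 75))) * l ^ (K + 3) * (η * l) ^ 2 := by ring
        rw [h7]
        exact le_mul_of_one_le_right (by positivity) h5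
      refine h6.trans ?_
      have h8 : Real.exp (-(l / 80)) = Real.exp (l / 1200) * Real.exp (-(l / 75)) := by
        rw [← Real.exp_add]; congr 1; ring
      have h9 : 768 * l ^ (K + 5) ≤ Real.exp (l / 1200) := by
        have h10 : Real.exp (1 / 2000 * l) ≤ Real.exp (l / 1200) := Real.exp_le_exp.2 (by linarith)
        have h11 : 0 ≤ l ^ (K + 5) := by positivity
        linarith
      rw [h8]
      calc 256 * T * Real.exp (-(l / 75)) * l ^ (K + 5) ≤ 256 * (3 * T₀) * Real.exp (-(l / 75)) * l ^ (K + 5) := by gcongr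
        _ = T₀ * (768 * l ^ (K + 5) * Real.exp (-(l / 75))) := by ring
        _ ≤ T₀ * (Real.exp (l / 1200) * Real.exp (-(l / 75))) := by gcongr
    · intro D hD1 hD hDE
      have h5 := g4 D hD1 hD hDE
      rw [hTv, hshift (fun s => FF W ω b.val s * FF W ω b.val (s + D)) (fun s hs => by rw [hFlow b s hs, zero_mul])] at h5
      have hPP := PP_one_le w D
      have h6 : ((T₀ : ℝ) + η * T) * PP w D ≤ (1 + η₀) * T₀ * PP w D := by
        apply mul_le_mul_of_nonneg_right _ (by linarith)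
        linarith
      refine le_trans (le_of_eq ?_) (h5.trans h6)
      refine sum_congr rfl fun s _ => ?_
      show FF W ω b.val (v + s) * FF W ω b.val (v + (s + D)) = FF W ω b.val (v + s) * FF W ω b.val (v + s + D)
      rw [add_assoc]
  · -- the number of the primes
    intro b hb hbB
    obtain ⟨-, g2, -, -⟩ := hgood b hb hbB
    rw [hTv] at g2
    obtain ⟨L, hLdef⟩ : ∃ L, L = Real.log (N : ℝ) := ⟨_, rfl⟩
    rw [← hLdef]
    have hL1 : 100 * l ≤ L := by rw [hLdef]; exact hlogN1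
    have hL0 : 0 < L := by linarith
    have hφ0 : (0 : ℝ) < Nat.totient W := by exact_mod_cast Nat.totient_pos.2 hWpos
    obtain ⟨a, ha⟩ : ∃ a, a = ⌈v + η * T * (7 / 64)⌉₊ := ⟨_, rfl⟩
    obtain ⟨b', hb'⟩ : ∃ b', b' = ⌊T * (1 - η / 16)⌋₊ := ⟨_, rfl⟩
    have ha1 : v + η * T * (7 / 64) ≤ a := by rw [ha]; exact Nat.le_ceil _
    have ha2 : (a : ℝ) < v + η * T * (7 / 64) + 1 := by rw [ha]; exact Nat.ceil_lt_add_one (by positivity)
    have hb0 : 0 ≤ T * (1 - η / 16) := mul_nonneg hT0.le (by linarith)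
    have hb1 : (b' : ℝ) ≤ T * (1 - η / 16) := by rw [hb']; exact Nat.floor_le hb0
    have hb2 : T * (1 - η / 16) < b' + 1 := by rw [hb']; exact Nat.lt_floor_add_one _
    have hηT6' : 10 ^ 6 ≤ η * T := hηT6
    have hva : v + 2 ≤ a := by
      have : (v : ℝ) + 2 ≤ a := by linarith
      exact_mod_cast this
    have hbT : b' + 2 ≤ T := by
      have : (b' : ℝ) + 2 ≤ T := by nlinarith only [hb1, hηT6']
      exact_mod_cast this
    have hcast1 : ((a - v : ℕ) : ℝ) = a - v := Nat.cast_sub (by omega)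
    have hcast2 : ((T - b' : ℕ) : ℝ) = T - b' := Nat.cast_sub (by omega)
    have hr : b.val < W := ZMod.val_lt b
    have hcop : b.val.Coprime W := by
      have := ZMod.val_coe_unit_coprime hb.unit
      simpa using this
    -- the logarithms
    have hlogT : L ≤ 2 * Real.log (η * T * (1 / 16)) := by
      have h1 : Real.log (T : ℝ) - Real.log l ≤ Real.log (η * T * (1 / 16)) := by
        rw [← Real.log_div hT0.ne' hl0.ne']
        apply Real.log_le_log (by positivity)
        rw [div_le_iff₀ hl0]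
        have h2 : η * T * (1 / 16) * l = (η * l) * T / 16 := by ring
        rw [h2]
        have h3 : 8000 * (T : ℝ) ≤ (η * l) * T := mul_le_mul_of_nonneg_right hηl8 hT0.le
        linarith
      have h4 : Real.log l ≤ l := (Real.log_le_sub_one_of_pos hl0).trans (by linarith)
      have h5 : 99 * l ≤ Real.log T := by
        rw [← Real.log_exp (99 * l)]
        exact Real.log_le_log (Real.exp_pos _) hTl
      have h6 : L = Real.log W + Real.log T := by
        rw [hLdef, hNWT]
        exact Real.log_mul hW0.ne' hT0.ne'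
      have h7 : Real.log W ≤ l / 700 := by
        rw [← Real.log_exp (l / 700)]
        exact Real.log_le_log hW0 hWl
      linarith
    have hηT0 : 0 < η * T * (1 / 16) := by positivity
    have hlogle : ∀ x : ℝ, η * T * (1 / 16) ≤ x → L ≤ 2 * Real.log x := fun x hx => by
      have := Real.log_le_log hηT0 hx
      linarith
    have hE1 := edge hCb hbt (r := b.val) (u := v) (u' := a) (L := L) (E := η * T * (8 / 64)) hWpos hcop hva
      (by rw [hcast1]; linarith) hL0 (hlogle _ (by rw [hcast1]; linarith))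
    have hE2 := edge hCb hbt (r := b.val) (u := b') (u' := T) (L := L) (E := η * T * (8 / 64)) hWpos hcop hbT
      (by rw [hcast2]; linarith) hL0 (hlogle _ (by rw [hcast2]; linarith))
    -- the middle
    have hmid := om_one_win (T := T) (v := v) hWpos hη hη1' hN₁pos hv23 (by rw [← hN]; exact hN₁1) (by linarith) b.val hr
    rw [← ha, ← hb', ← hN, ← hωdef] at hmid
    obtain ⟨lam, hlam⟩ : ∃ lam, lam = Real.log (64 / (7 * η)) := ⟨_, rfl⟩
    rw [← hlam, ← hLdef] at hmid
    have hlaml : lam ≤ η₀ * l := by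
      refine le_trans ?_ hlogη
      rw [hlam]
      apply Real.log_le_log (by positivity)
      rw [div_le_iff₀ (by positivity)]
      linarith
    have hlamL : lam ≤ η₀ * L / 100 := by
      have : η₀ * (100 * l) ≤ η₀ * L := mul_le_mul_of_nonneg_left hL1 hη₀.le
      linarith
    have hLlam : 0 < L - lam := by
      have : η₀ * L ≤ 1 / 2 * L := mul_le_mul_of_nonneg_right hη₀2 hL0.le
      linarith
    obtain ⟨Mm, hMm⟩ : ∃ Mm, Mm = (Ico a b').filter (fun s => (b.val + W * s).Prime) := ⟨_, rfl⟩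
    have hMs : (Nat.totient W : ℝ) / W * ((L - lam) * Mm.card) ≤ T₀ + η * T := by
      have h1 : ∑ s ∈ Mm, (Nat.totient W : ℝ) / W * (L - lam) ≤ ∑ s ∈ range T, FF W ω b.val s := by
        calc ∑ s ∈ Mm, (Nat.totient W : ℝ) / W * (L - lam) ≤ ∑ s ∈ Mm, FF W ω b.val s := by
              apply sum_le_sum
              intro s hs
              rw [hMm, mem_filter] at hs
              obtain ⟨h2, h3⟩ := hmid s hs.1
              unfold FF nu
              rw [if_pos hs.2, h3, mul_one]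
              exact mul_le_mul_of_nonneg_left h2 (by positivity)
          _ ≤ _ := by
              apply sum_le_sum_of_subset_of_nonneg
              · intro s hs
                rw [hMm, mem_filter, mem_Ico] at hs
                rw [mem_range]
                omega
              · intro s _ _
                exact FF_nonneg hω _ _
      rw [sum_const, nsmul_eq_mul] at h1
      calc (Nat.totient W : ℝ) / W * ((L - lam) * Mm.card) = Mm.card * ((Nat.totient W : ℝ) / W * (L - lam)) := by ring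
        _ ≤ _ := h1
        _ ≤ _ := by linarith
    have hMc : (Mm.card : ℝ) ≤ (1 + 2 * η₀) * ((W : ℝ) / Nat.totient W) * (T₀ / L) := by
      have h1 : (Mm.card : ℝ) * (L - lam) ≤ (W : ℝ) / Nat.totient W * ((1 + η₀) * T₀) := by
        have h2 : (Mm.card : ℝ) * (L - lam) = (W : ℝ) / Nat.totient W * ((Nat.totient W : ℝ) / W * ((L - lam) * Mm.card)) := by
          field_simp
        rw [h2]
        apply mul_le_mul_of_nonneg_left _ (by positivity)
        linarith
      have h3 : (1 - η₀ / 100) * L ≤ L - lam := by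
        have : (1 - η₀ / 100) * L = L - η₀ * L / 100 := by ring
        linarith
      have h4 : (Mm.card : ℝ) * ((1 - η₀ / 100) * L) ≤ (W : ℝ) / Nat.totient W * ((1 + η₀) * T₀) :=
        (mul_le_mul_of_nonneg_left h3 (Nat.cast_nonneg _)).trans h1
      have h5 : (1 + η₀) ≤ (1 + 2 * η₀) * (1 - η₀ / 100) := by nlinarith only [hη₀, hη₀2]
      have h6 : (W : ℝ) / Nat.totient W * ((1 + η₀) * T₀) ≤
          (W : ℝ) / Nat.totient W * (((1 + 2 * η₀) * (1 - η₀ / 100)) * T₀) := by gcongr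
      have h7 : 0 < (1 - η₀ / 100) * L := mul_pos (by linarith) hL0
      have h8 : (1 + 2 * η₀) * ((W : ℝ) / Nat.totient W) * (T₀ / L) =
          (W : ℝ) / Nat.totient W * (((1 + 2 * η₀) * (1 - η₀ / 100)) * T₀) / ((1 - η₀ / 100) * L) := by
        rw [eq_div_iff h7.ne']
        have h9 : (T₀ : ℝ) / L * L = T₀ := div_mul_cancel₀ _ hL0.ne'
        linear_combination ((1 + 2 * η₀) * ((W : ℝ) / Nat.totient W) * (1 - η₀ / 100)) * h9
      rw [h8, le_div_iff₀ h7]
      exact h4.trans h6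
    -- the decomposition
    have hcard : ((range T₀).filter (fun s => (b.val + W * (v + s)).Prime)).card ≤
        ((Ico v a).filter (fun s => (b.val + W * s).Prime)).card + Mm.card +
          ((Ico b' T).filter (fun s => (b.val + W * s).Prime)).card := by
      have h1 : ((range T₀).filter (fun s => (b.val + W * (v + s)).Prime)).card ≤
          ((Ico v a).filter (fun s => (b.val + W * s).Prime) ∪ Mm ∪
            (Ico b' T).filter (fun s => (b.val + W * s).Prime)).card := by
        apply card_le_card_of_injOn (fun s => v + s)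
        · intro s hs
          rw [mem_coe, mem_filter, mem_range] at hs
          refine mem_coe.2 ?_
          show v + s ∈ (Ico v a).filter (fun s => (b.val + W * s).Prime) ∪ Mm ∪
            (Ico b' T).filter (fun s => (b.val + W * s).Prime)
          rw [mem_union, mem_union, hMm, mem_filter, mem_filter, mem_filter, mem_Ico, mem_Ico, mem_Ico]
          have h2 : v + s < T := by rw [hT]; exact Nat.add_lt_add_left hs.1 v
          rcases lt_or_ge (v + s) a with h3 | h3
          · exact Or.inl (Or.inl ⟨⟨Nat.le_add_right _ _, h3⟩, hs.2⟩)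
          · rcases lt_or_ge (v + s) b' with h4 | h4
            · exact Or.inl (Or.inr ⟨⟨h3, h4⟩, hs.2⟩)
            · exact Or.inr ⟨⟨h4, h2⟩, hs.2⟩
        · intro s _ s' _ h
          exact Nat.add_left_cancel h
      exact h1.trans ((card_union_le _ _).trans (Nat.add_le_add_right (card_union_le _ _) _))
    have hcard' : (((range T₀).filter (fun s => (b.val + W * (v + s)).Prime)).card : ℝ) ≤
        (((Ico v a).filter (fun s => (b.val + W * s).Prime)).card : ℝ) + Mm.card +
          ((Ico b' T).filter (fun s => (b.val + W * s).Prime)).card := by exact_mod_cast hcard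
    have hZ : 0 ≤ ((W : ℝ) / Nat.totient W) * (T₀ / L) := by positivity
    have hE3 : Cb * ((W : ℝ) / Nat.totient W) * (2 * (η * T * (8 / 64)) / L) ≤
        Cb * η₀ * (((W : ℝ) / Nat.totient W) * (T₀ / L)) := by
      have h1 : 2 * (η * T * (8 / 64)) / L ≤ η₀ * (T₀ / L) := by
        have h2 : η₀ * ((T₀ : ℝ) / L) = η₀ * T₀ / L := by ring
        rw [h2]
        apply div_le_div_of_nonneg_right _ hL0.le
        have : 0 ≤ η * T := by positivity
        linarith
      calc Cb * ((W : ℝ) / Nat.totient W) * (2 * (η * T * (8 / 64)) / L) ≤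
            Cb * ((W : ℝ) / Nat.totient W) * (η₀ * (T₀ / L)) := mul_le_mul_of_nonneg_left h1 (by positivity)
        _ = _ := by ring
    have hfin : (1 + (540000 * C₁ + (2 + 2 * Cb)) * η₀) * ((W : ℝ) / Nat.totient W) * (T₀ / L) =
        540000 * C₁ * η₀ * (((W : ℝ) / Nat.totient W) * (T₀ / L)) + (Cb * η₀ * (((W : ℝ) / Nat.totient W) * (T₀ / L)) +
          (1 + 2 * η₀) * ((W : ℝ) / Nat.totient W) * (T₀ / L) + Cb * η₀ * (((W : ℝ) / Nat.totient W) * (T₀ / L))) := by ring
    rw [hfin]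
    have h0 : 0 ≤ 540000 * C₁ * η₀ * (((W : ℝ) / Nat.totient W) * (T₀ / L)) := by positivity
    linarith

end Pool.Agent.J4H57.HL
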